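import Mathlib
import Pool.Agent.H637R2.Leo.Crit

/-!
# Project LC (helper18): Leopoldt's conjecture for composites `k L₀`, `L₀ / ℚ` cyclic

Exact statements of the jobs (as `Prop`s).
-/

set_option autoImplicit false

namespace Pool.Agent.Y18.LC

open Finset NumberField IsDedekindDomain Module Pool.Agent.H637R2.Leo

/-- LC-ANN: a finite module over a finite abelian `p`-group with few invariants is killed by an
element of the group ring with small augmentation (multiplicative notation: the module is `U / V`) -/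
def ANN : Prop := ∀ (p : ℕ) [Fact p.Prime] (B : ℕ), ∃ W : ℕ,
  ∀ (P : Type) [CommGroup P] [Fintype P], IsPGroup p P →
  ∀ (M : Type) [CommGroup M] [MulDistribMulAction P M] (U V : Subgroup M), V ≤ U →
    (∀ (g : P), ∀ u ∈ U, g • u ∈ U) → (∀ (g : P), ∀ v ∈ V, g • v ∈ V) →
    (∃ n : ℕ, ∀ u ∈ U, u ^ p ^ n ∈ V) →
    (∃ R : Finset M, ∀ u ∈ U, ∃ r ∈ R, u / r ∈ V) →
    (∃ R : Finset M, R.card ≤ B ∧ ∀ u ∈ U, (∀ g : P, g • u / u ∈ V) → ∃ r ∈ R, u / r ∈ V) →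
    ∃ x : P → ℤ, (∀ u ∈ U, ∏ g, (g • u) ^ x g ∈ V) ∧ ∃ w ≤ W, ∑ g, x g = (p : ℤ) ^ w

/-- LC-CYC: in the integers of `ℚ(ζ_p)`, an element whose norm is divisible by a high power of `p`
is divisible by a high power of `p` -/
def CYC : Prop := ∀ (p : ℕ) [Fact p.Prime], p ≠ 2 → ∀ (e : ℕ) (y : 𝓞 (CyclotomicField p ℚ)),
  p ^ (e * (p - 1)) ∣ Ideal.absNorm (Ideal.span {y}) → (p : 𝓞 (CyclotomicField p ℚ)) ^ e ∣ y

/-- LC-UNC: the uncertainty principle -/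
def UNC : Prop := ∀ (p : ℕ) [Fact p.Prime], p ≠ 2 → ∀ (m c W : ℕ), ∃ N : ℕ, ∀ n ≥ N,
  ∀ (P : Type) [CommGroup P] [Fintype P], (∀ g : P, g ^ p = 1) → Fintype.card P = p ^ m →
  ∀ (M : Type) [CommGroup M] [MulDistribMulAction P M] (V : Subgroup M),
    (∀ (g : P), ∀ v ∈ V, g • v ∈ V) →
    ∀ (x : P → ℤ) (w : ℕ), w ≤ W → ∑ g, x g = (p : ℤ) ^ w →
    ∀ (𝓗 : Finset (Subgroup P)), (∀ H ∈ 𝓗, H.index = p ∧ ∃ z : M,
      (∀ h ∈ H, h • z = z) ∧ z ^ p ^ n ∈ V ∧ z ^ p ^ (n - 1) ∉ V ∧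
      (∏ g : P, g • z) ^ p ^ c ∈ V ∧ ∏ g, (g • z) ^ x g ∈ V) →
    𝓗.card * (p - 1) + p ^ (m - W) ≤ p ^ m

/-- LC-CLS: elements of a number field with divisor divisible by `N` -/
def CLS : Prop := ∀ (k : Type) [Field k] [NumberField k] (N : ℕ), 1 ≤ N →
  ∃ T : Finset kˣ, T.card ≤ Nat.card (ClassGroup (𝓞 k)) ∧
    ∀ a : kˣ, (∀ v : HeightOneSpectrum (𝓞 k), ∃ j : ℤ,
      v.valuation k (a : k) = WithZero.exp (N * j)) →
      ∃ t ∈ T, ∃ (η : (𝓞 k)ˣ) (b : kˣ), (a : k) = (t : k) * ((η : 𝓞 k) : k) * (b : k) ^ N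

/-- the units close to `1` for the `p`-adic topology are `p ^ n`-th powers -/
def Top (E : Type) [Field E] [NumberField E] (p : ℕ) : Prop :=
  ∀ n : ℕ, ∃ M : ℕ, ∀ u : (𝓞 E)ˣ, (p : 𝓞 E) ^ M ∣ ((u : 𝓞 E) - 1) → ∃ w : (𝓞 E)ˣ, w ^ p ^ n = u

/-- LC-TA -/
def TA : Prop := ∀ (E : Type) [Field E] [NumberField E] (p : ℕ) [Fact p.Prime],
  (∀ ζ : (𝓞 E)ˣ, ζ ^ p = 1 → ζ = 1) → Leopoldt E p → Top E p

/-- LC-TB -/
def TB : Prop := ∀ (E : Type) [Field E] [NumberField E] (p : ℕ) [Fact p.Prime],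
  Top E p → Leopoldt E p

/-- `p` is unramified in `E` -/
def Unram (E : Type) [Field E] [NumberField E] (p : ℕ) : Prop :=
  (Ideal.span {(p : 𝓞 E)}).IsRadical

/-- LC-KB: uniform bound for the groups `E_{j + 1} / E_1 ^ (p ^ j)` -/
def KB : Prop := ∀ (k : Type) [Field k] [NumberField k] (p : ℕ) [Fact p.Prime], p ≠ 2 →
  Unram k p → Top k p → ∃ B : ℕ, ∀ j : ℕ, ∃ T : Finset (𝓞 k)ˣ, T.card ≤ B ∧
    ∀ θ : (𝓞 k)ˣ, (p : 𝓞 k) ^ (j + 1) ∣ ((θ : 𝓞 k) - 1) → ∃ τ ∈ T, ∃ ε : (𝓞 k)ˣ,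
      (p : 𝓞 k) ∣ ((ε : 𝓞 k) - 1) ∧ θ = τ * ε ^ p ^ j

/-- LC-BRU: the theorem of Ax and Brumer for abelian fields -/
def BRU : Prop := ∀ (E : Type) [Field E] [NumberField E] (p : ℕ) [Fact p.Prime], IsGalois ℚ E →
  (∀ g h : E ≃ₐ[ℚ] E, g * h = h * g) → Leopoldt E p

/-- LC-NRM: norms -/
def NRM : Prop := ∀ (F : Type) [Field F] [NumberField F] (F₀ : IntermediateField ℚ F),
  (∀ y : F, IsIntegral ℤ y → y ≠ 0 →
    IsIntegral ℤ (algebraMap F₀ F (Algebra.norm F₀ y) / y)) ∧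
  (∀ g : F ≃+* F, (∀ x ∈ F₀, g x ∈ F₀) → ∀ y : F,
    algebraMap F₀ F (Algebra.norm F₀ (g y)) = g (algebraMap F₀ F (Algebra.norm F₀ y)))

/-- LC-NSP: an element whose multiples divide powers has no pole at a nonsplit prime -/
def NSP : Prop := ∀ (k : Type) [Field k] [NumberField k] (q : ℕ), q.Prime →
  ∀ v : HeightOneSpectrum (𝓞 k), (q : 𝓞 k) ∈ v.asIdeal →
    (∀ v' : HeightOneSpectrum (𝓞 k), (q : 𝓞 k) ∈ v'.asIdeal → v' = v) →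
    ∀ (a : kˣ) (n : ℕ), (∀ s : ℤ, s ≠ 0 → IsIntegral ℤ ((s : k) * a) →
      IsIntegral ℤ ((s : k) ^ n / ((s : k) * a))) → 1 ≤ v.valuation k (a : k)

/-- LC-RAM: base change of unramified primes -/
def RAM : Prop := ∀ (k F : Type) [Field k] [NumberField k] [Field F] [NumberField F] [Algebra k F]
  (F₀ : IntermediateField ℚ F), IsGalois ℚ F₀ →
  IntermediateField.adjoin k (F₀ : Set F) = ⊤ → ∀ q : ℕ, q.Prime → Unram F₀ q →
  ∀ v : HeightOneSpectrum (𝓞 k), (q : 𝓞 k) ∈ v.asIdeal →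
    ∃ w : HeightOneSpectrum (𝓞 F), ∀ x : k,
      w.valuation F (algebraMap k F x) = v.valuation k x

/-- LC-FLD: Galois theory of the composite -/
def FLD : Prop := ∀ (p : ℕ) [Fact p.Prime] (m : ℕ) (k F : Type) [Field k] [NumberField k] [Field F]
  [NumberField F] [Algebra k F] (F₀ : IntermediateField ℚ F), IsGalois ℚ F₀ →
  (∀ g h : F₀ ≃ₐ[ℚ] F₀, g * h = h * g) → (∀ g : F₀ ≃ₐ[ℚ] F₀, g ^ p = 1) →
  finrank ℚ F₀ = p ^ m → IntermediateField.adjoin k (F₀ : Set F) = ⊤ → ¬ p ∣ finrank ℚ k →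
  IsGalois k F ∧ (∀ g h : F ≃ₐ[k] F, g * h = h * g) ∧ (∀ g : F ≃ₐ[k] F, g ^ p = 1) ∧
    Nat.card (F ≃ₐ[k] F) = p ^ m ∧ (∀ g : F ≃ₐ[k] F, ∀ x ∈ F₀, g x ∈ F₀) ∧ ¬ p ∣ finrank F₀ F ∧
    ∀ H : Subgroup (F ≃ₐ[k] F), H.index = p → ∃ L₀ : IntermediateField ℚ F, L₀ ≤ F₀ ∧
      finrank ℚ L₀ = p ∧ IntermediateField.adjoin k (L₀ : Set F) = IntermediateField.fixedField H ∧
      ∀ x ∈ F₀, x ∈ IntermediateField.fixedField H → x ∈ L₀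

/-- LC-SUB: the number of the subgroups of index `p` -/
def SUB : Prop := ∀ (p : ℕ) [Fact p.Prime] (m : ℕ) (P : Type) [CommGroup P] [Fintype P],
  (∀ g : P, g ^ p = 1) → Fintype.card P = p ^ m →
  Nat.card {H : Subgroup P // H.index = p} * (p - 1) + 1 = p ^ m

end Pool.Agent.Y18.LC
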