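import Mathlib
import Pool.Agent.Y18.LC.Stm

/-!
# Project LC (helper18), second batch: the general base and infinite towers
-/

set_option autoImplicit false

namespace Pool.Agent.Y18.LC

open Finset NumberField IsDedekindDomain Module Pool.Agent.H637R2.Leo

/-- LC-NSP2: NSP over a general base -/
def NSP2 : Prop := ∀ (K k : Type) [Field K] [NumberField K] [Field k] [NumberField k] [Algebra K k]
  (v : HeightOneSpectrum (𝓞 k)),
    (∀ v' : HeightOneSpectrum (𝓞 k), v'.asIdeal.comap (algebraMap (𝓞 K) (𝓞 k)) =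
      v.asIdeal.comap (algebraMap (𝓞 K) (𝓞 k)) → v' = v) →
    ∀ (a : kˣ) (n : ℕ), (∀ s : 𝓞 K, s ≠ 0 → IsIntegral ℤ (algebraMap K k s * a) →
      IsIntegral ℤ (algebraMap K k s ^ n / (algebraMap K k s * a))) → 1 ≤ v.valuation k (a : k)

/-- LC-FLD2: Galois theory of the composite, over the base `M₀` contained in `k` -/
def FLD2 : Prop := ∀ (p : ℕ) [Fact p.Prime] (m r : ℕ) (k F : Type) [Field k] [NumberField k]
  [Field F] [NumberField F] [Algebra k F] (M₀ F₀ : IntermediateField ℚ F), M₀ ≤ F₀ →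
  IsGalois ℚ F₀ → (∀ g h : F₀ ≃ₐ[ℚ] F₀, g * h = h * g) → (∀ g : F₀ ≃ₐ[ℚ] F₀, g ^ p = 1) →
  finrank ℚ M₀ = p ^ r → finrank ℚ F₀ = p ^ (r + m) →
  IntermediateField.adjoin k (F₀ : Set F) = ⊤ → (M₀ : Set F) ⊆ Set.range (algebraMap k F) →
  (∃ n : ℕ, finrank ℚ k = n * p ^ r ∧ ¬ p ∣ n) →
  IsGalois k F ∧ (∀ g h : F ≃ₐ[k] F, g * h = h * g) ∧ (∀ g : F ≃ₐ[k] F, g ^ p = 1) ∧
    Nat.card (F ≃ₐ[k] F) = p ^ m ∧ (∀ g : F ≃ₐ[k] F, ∀ x ∈ F₀, g x ∈ F₀) ∧ ¬ p ∣ finrank F₀ F ∧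
    ∀ H : Subgroup (F ≃ₐ[k] F), H.index = p → ∃ L₀ : IntermediateField ℚ F, M₀ ≤ L₀ ∧ L₀ ≤ F₀ ∧
      finrank ℚ L₀ = p ^ (r + 1) ∧ (∀ g : F ≃ₐ[k] F, g ∈ H ↔ ∀ x ∈ L₀, g x = x) ∧
      ∀ x ∈ F₀, x ∈ IntermediateField.fixedField H → x ∈ L₀

/-- LC-NSB: a prime which is nonsplit in `k` is nonsplit in `k M₀ / M₀` -/
def NSB : Prop := ∀ (p : ℕ) [Fact p.Prime] (r : ℕ) (k F : Type) [Field k] [NumberField k]
  [Field F] [NumberField F] [Algebra k F] (M₀ : IntermediateField ℚ F), IsGalois ℚ M₀ →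
  finrank ℚ M₀ = p ^ r → IntermediateField.adjoin k (M₀ : Set F) = ⊤ → ¬ p ∣ finrank ℚ k →
  ∀ q : ℕ, q.Prime →
    (∀ v v' : HeightOneSpectrum (𝓞 k), (q : 𝓞 k) ∈ v.asIdeal → (q : 𝓞 k) ∈ v'.asIdeal → v = v') →
    ∀ w w' : HeightOneSpectrum (𝓞 F), (q : 𝓞 F) ∈ w.asIdeal →
      w'.asIdeal.comap (algebraMap (𝓞 M₀) (𝓞 F)) = w.asIdeal.comap (algebraMap (𝓞 M₀) (𝓞 F)) →
      w' = w

/-- LC-UNR: composites of unramified extensions -/
def UNR : Prop := ∀ (k F : Type) [Field k] [NumberField k] [Field F] [NumberField F] [Algebra k F]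
  (F₀ : IntermediateField ℚ F), IsGalois ℚ F₀ →
  IntermediateField.adjoin k (F₀ : Set F) = ⊤ → ∀ q : ℕ, q.Prime → Unram F₀ q → Unram k q →
  Unram F q

/-- LC-DSC: Leopoldt's conjecture descends to subfields -/
def DSC : Prop := ∀ (E E' : Type) [Field E] [NumberField E] [Field E'] [NumberField E']
  (_ : E →+* E') (p : ℕ) [Fact p.Prime], Leopoldt E' p → Leopoldt E p

end Pool.Agent.Y18.LC
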