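import Mathlib
import Pool.Agent.Y18.LC.Stm2

/-!
# Project LC (helper18), third batch: existence of infinite towers, unconditional examples
-/

set_option autoImplicit false

namespace Pool.Agent.Y18.LC

open Finset NumberField IsDedekindDomain Module Pool.Agent.H637R2.Leo

/-- LC-GLF: automorphisms and the `p`-th roots of unity, `p` unramified in `k` -/
def GLF : Prop := ∀ (k : Type) [Field k] [NumberField k] (p : ℕ), p.Prime → Unram k p →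
  ∀ g : AlgebraicClosure ℚ ≃+* AlgebraicClosure ℚ,
    ∃ g' : AlgebraicClosure ℚ ≃+* AlgebraicClosure ℚ,
      (∀ (τ : k →+* AlgebraicClosure ℚ) (x : k), g' (τ x) = g (τ x)) ∧
      ∀ ζ : AlgebraicClosure ℚ, ζ ^ p = 1 → g' ζ = ζ

/-- LC-CHB: infinitely many primes `q ≡ 1 (mod p)` with only one prime of `k` above `q` -/
def CHB : Prop := ∀ (k : Type) [Field k] [NumberField k] (p : ℕ), p.Prime →
  ∀ g : AlgebraicClosure ℚ ≃+* AlgebraicClosure ℚ,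
    (∀ τ τ' : k →+* AlgebraicClosure ℚ, ∃ j : ℕ, ∀ x : k, (⇑g)^[j] (τ x) = τ' x) →
    (∀ ζ : AlgebraicClosure ℚ, ζ ^ p = 1 → g ζ = ζ) →
    {q : ℕ | q.Prime ∧ q % p = 1 ∧ ∀ P P' : Ideal (𝓞 k), P.IsPrime → P'.IsPrime →
      (q : 𝓞 k) ∈ P → (q : 𝓞 k) ∈ P' → P = P'}.Infinite

/-- LC-PRD: fields of prime degree -/
def PRD : Prop := ∀ (k : Type) [Field k] [NumberField k], (finrank ℚ k).Prime →
  ∃ g : AlgebraicClosure ℚ ≃+* AlgebraicClosure ℚ,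
    ∀ τ τ' : k →+* AlgebraicClosure ℚ, ∃ j : ℕ, ∀ x : k, (⇑g)^[j] (τ x) = τ' x

/-- LC-CYA: infinite elementary abelian extensions of `ℚ` -/
def CYA : Prop := ∀ (Ω : Type) [Field Ω] [CharZero Ω] [IsAlgClosed Ω] (p : ℕ) [Fact p.Prime]
  (Q : Set ℕ), Q.Infinite → (∀ q ∈ Q, q.Prime ∧ q % p = 1) →
  ∃ A : IntermediateField ℚ Ω, (IsGalois ℚ A ∧ (∀ g h : A ≃ₐ[ℚ] A, g * h = h * g) ∧
      ∀ g : A ≃ₐ[ℚ] A, g ^ p = 1) ∧ ¬ FiniteDimensional ℚ A ∧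
    ∀ l : ℕ, l.Prime → l ∉ Q → (Ideal.span {(l : 𝓞 A)}).IsRadical

/-- LC-FAM: totally real fields of prime degree -/
def FAM : Prop := ∀ (n p : ℕ) [Fact p.Prime], n.Prime → 3 ≤ n → p ≠ n →
  ∀ (ι : Type) [Fintype ι] (L : ι → Type) [∀ i, Field (L i)] [∀ i, NumberField (L i)],
    ∃ (K : Type) (_ : Field K) (_ : NumberField K), finrank ℚ K = n ∧ IsTotallyReal K ∧
      ¬ IsGalois ℚ K ∧ (∀ i, IsEmpty (K ≃+* L i)) ∧ Unram K p ∧ Leopoldt K p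

end Pool.Agent.Y18.LC
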