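import Mathlib
import Pool.Agent.Y18.LC.Stm

/-!
# Project LC: units close to `1`
-/

set_option autoImplicit false

namespace Pool.Agent.Y18.LC

open Finset NumberField IsDedekindDomain Module

/-- the beginning of the binomial expansion -/
lemma binom3 {R : Type*} [CommRing R] (x : R) (n : ℕ) :
    ∃ q : R, (1 + x) ^ n = 1 + n * x + (n.choose 2 : ℕ) * x ^ 2 + x ^ 3 * q := by
  induction n with
  | zero => exact ⟨0, by simp⟩
  | succ n ih =>
    obtain ⟨q, hq⟩ := ih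
    refine ⟨q + (n.choose 2 : ℕ) + x * q, ?_⟩
    rw [pow_succ, hq, Nat.choose_succ_succ' n 1, Nat.choose_one_right]
    push_cast
    ring

/-- the `p`-th power of `1 + p y` -/
lemma pow_loc {R : Type*} [CommRing R] {p : ℕ} (hp : p.Prime) (hp2 : p ≠ 2) (y : R) :
    ∃ z : R, (1 + p * y) ^ p = 1 + p ^ 2 * y * (1 + p * z) := by
  obtain ⟨q, hq⟩ := binom3 ((p : R) * y) p
  obtain ⟨c, hc⟩ : p ∣ p.choose 2 :=
    hp.dvd_choose_self two_ne_zero (lt_of_le_of_ne hp.two_le (Ne.symm hp2))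
  refine ⟨c * y + y ^ 2 * q, ?_⟩
  rw [hq, hc]
  push_cast
  ring

variable {F : Type} [Field F] [NumberField F]

/-- a unit `1 + p y` which is a `p`-th root of unity is `1` -/
lemma one_of_pow {p : ℕ} (hp : p.Prime) (hp2 : p ≠ 2) {u : 𝓞 F} (hu : (p : 𝓞 F) ∣ u - 1)
    (h : u ^ p = 1) : u = 1 := by
  obtain ⟨y, hy⟩ := hu
  have hu' : u = 1 + p * y := by rw [← hy]; ring
  obtain ⟨z, hz⟩ := pow_loc hp hp2 y
  rw [hu', hz] at h
  have h1 : (p : 𝓞 F) ^ 2 * y * (1 + p * z) = 0 := by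
    have := congrArg (fun t => t - 1) h
    simpa using this
  have hp0 : (p : 𝓞 F) ≠ 0 := Nat.cast_ne_zero.2 hp.ne_zero
  have hnu : ¬ IsUnit ((p : 𝓞 F)) := by
    intro hun
    have h2 := (hun.map (Algebra.norm ℤ))
    rw [show ((p : ℕ) : 𝓞 F) = algebraMap ℤ (𝓞 F) (p : ℤ) by simp, Algebra.norm_algebraMap] at h2
    have h3 : IsUnit (p : ℤ) := by
      rw [isUnit_pow_iff (Module.finrank_pos (R := ℤ) (M := 𝓞 F)).ne'] at h2
      exact h2
    exact (Nat.prime_iff_prime_int.1 hp).not_unit h3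
  have h2 : (1 + (p : 𝓞 F) * z) ≠ 0 := by
    intro h0
    apply hnu
    refine IsUnit.of_mul_eq_one (-z) ?_
    linear_combination -h0
  have h3 : y = 0 := by
    rcases mul_eq_zero.1 h1 with h4 | h4
    · rcases mul_eq_zero.1 h4 with h5 | h5
      · exact absurd h5 (pow_ne_zero _ hp0)
      · exact h5
    · exact absurd h4 h2
  rw [hu', h3, mul_zero, add_zero]

/-- `p`-th roots of unity are trivial if `p` is odd and unramified -/
lemma no_torsion {p : ℕ} (hp : p.Prime) (hp2 : p ≠ 2) (hun : Unram F p) {ζ : 𝓞 F}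
    (h : ζ ^ p = 1) : ζ = 1 := by
  refine one_of_pow hp hp2 ?_ h
  have : Fact p.Prime := ⟨hp⟩
  have h1 : (ζ - 1) ^ p ∈ Ideal.span {(p : 𝓞 F)} := by
    obtain ⟨r, hr⟩ := exists_add_pow_prime_eq hp ζ (-1)
    rw [Ideal.mem_span_singleton]
    rw [sub_eq_add_neg, hr, h, (hp.odd_of_ne_two hp2).neg_one_pow]
    exact ⟨-ζ * r, by ring⟩
  have h2 : (ζ - 1) ∈ (Ideal.span {(p : 𝓞 F)}).radical := ⟨p, h1⟩
  rw [Ideal.IsRadical.radical hun] at h2
  exact Ideal.mem_span_singleton.1 h2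

/-- the same for `p ^ j`-th roots -/
lemma no_torsion' {p : ℕ} (hp : p.Prime) (hp2 : p ≠ 2) (hun : Unram F p) (j : ℕ) {ζ : 𝓞 F}
    (h : ζ ^ p ^ j = 1) : ζ = 1 := by
  induction j with
  | zero => simpa using h
  | succ j ih =>
    apply ih
    apply no_torsion hp hp2 hun
    rw [← pow_mul, ← pow_succ]
    exact h

/-- roots of units congruent to `1` modulo `p` -/
lemma dvd_of_pow {p : ℕ} (hp : p.Prime) (hun : Unram F p) (j : ℕ) {w : 𝓞 F}
    (h : (p : 𝓞 F) ∣ w ^ p ^ j - 1) : (p : 𝓞 F) ∣ w - 1 := by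
  induction j generalizing w with
  | zero => simpa using h
  | succ j ih =>
    have h1 : (p : 𝓞 F) ∣ w ^ p - 1 := by
      apply ih
      rw [← pow_mul, ← pow_succ']
      exact h
    have h5 : (p : 𝓞 F) ∣ (w - 1) ^ p := by
      obtain ⟨r, hr⟩ := exists_add_pow_prime_eq hp (w - 1) 1
      rw [sub_add_cancel, one_pow] at hr
      have : (w - 1) ^ p = (w ^ p - 1) - p * ((w - 1) * 1 * r) := by rw [hr]; ring
      rw [this]
      exact dvd_sub h1 (Dvd.intro _ rfl)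
    have h6 : (w - 1) ∈ (Ideal.span {(p : 𝓞 F)}).radical := ⟨p, Ideal.mem_span_singleton.2 h5⟩
    rw [Ideal.IsRadical.radical hun] at h6
    exact Ideal.mem_span_singleton.1 h6

/-- representatives -/
lemma rep_lemma {M α : Type*} [CommGroup M] (I : Subgroup M) (T : Finset α)
    (rel : M → α → Prop) (h : ∀ u ∈ I, ∃ t ∈ T, rel u t) (W : M → Prop)
    (hW : ∀ u ∈ I, ∀ u' ∈ I, ∀ t, rel u t → rel u' t → W (u / u')) :
    ∃ R : Finset M, R.card ≤ T.card ∧ (∀ r ∈ R, r ∈ I) ∧ ∀ u ∈ I, ∃ r ∈ R, W (u / r) := by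
  classical
  let f : α → M := fun t => if h : ∃ u ∈ I, rel u t then h.choose else 1
  have hf : ∀ t, (∃ u ∈ I, rel u t) → f t ∈ I ∧ rel (f t) t := by
    intro t ht
    have : f t = ht.choose := dif_pos ht
    rw [this]
    exact ht.choose_spec
  refine ⟨T.image f, card_image_le, ?_, ?_⟩
  · intro r hr
    obtain ⟨t, -, rfl⟩ := mem_image.1 hr
    by_cases ht : ∃ u ∈ I, rel u t
    · exact (hf t ht).1
    · have : f t = 1 := dif_neg ht
      rw [this]
      exact one_mem I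
  · intro u hu
    obtain ⟨t, ht, hr⟩ := h u hu
    have h1 := hf t ⟨u, hu, hr⟩
    exact ⟨f t, mem_image_of_mem f ht, hW u hu _ h1.1 t hr h1.2⟩

/-- an exponent prime to `p` which makes all units congruent to `1` modulo `p` -/
lemma exists_exp {p : ℕ} (hp : p.Prime) (hun : Unram F p) : ∃ t : ℕ, p.Coprime t ∧
    ∀ u : (𝓞 F)ˣ, (p : 𝓞 F) ∣ ((u ^ t : (𝓞 F)ˣ) : 𝓞 F) - 1 := by
  have : Fact p.Prime := ⟨hp⟩
  set I : Ideal (𝓞 F) := Ideal.span {(p : 𝓞 F)} with hI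
  have hI0 : I ≠ ⊥ := by
    rw [hI, Ne, Ideal.span_singleton_eq_bot]
    exact Nat.cast_ne_zero.2 hp.ne_zero
  have : Finite (𝓞 F ⧸ I) := Ideal.finiteQuotientOfFreeOfNeBot I hI0
  refine ⟨Nat.card (𝓞 F ⧸ I)ˣ, ?_, fun u => ?_⟩
  · rw [hp.coprime_iff_not_dvd]
    intro hdvd
    obtain ⟨x, hx⟩ := exists_prime_orderOf_dvd_card' p hdvd
    have h1 : x ^ p = 1 := by rw [← hx]; exact pow_orderOf_eq_one x
    have h2 : x ≠ 1 := by
      rintro rfl
      rw [orderOf_one] at hx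
      exact hp.one_lt.ne hx
    apply h2
    obtain ⟨y, hy⟩ := Ideal.Quotient.mk_surjective (x : 𝓞 F ⧸ I)
    have h3 : (Ideal.Quotient.mk I) (y ^ p) = 1 := by
      rw [map_pow, hy, ← Units.val_pow_eq_pow_val, h1, Units.val_one]
    have h4 : (p : 𝓞 F) ∣ y ^ p - 1 := by
      rw [← Ideal.mem_span_singleton, ← hI, ← Ideal.Quotient.eq, h3, map_one]
    have h5 : (p : 𝓞 F) ∣ (y - 1) ^ p := by
      obtain ⟨r, hr⟩ := exists_add_pow_prime_eq hp (y - 1) 1
      rw [sub_add_cancel, one_pow] at hr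
      have : (y - 1) ^ p = (y ^ p - 1) - p * ((y - 1) * 1 * r) := by rw [hr]; ring
      rw [this]
      exact dvd_sub h4 (Dvd.intro _ rfl)
    have h6 : (y - 1) ∈ I.radical := ⟨p, Ideal.mem_span_singleton.2 h5⟩
    rw [Ideal.IsRadical.radical hun] at h6
    ext
    rw [← hy, Units.val_one, ← map_one (Ideal.Quotient.mk I), Ideal.Quotient.eq]
    exact h6
  · have h1 : (Units.map (Ideal.Quotient.mk I).toMonoidHom u) ^ Nat.card (𝓞 F ⧸ I)ˣ = 1 :=
      pow_card_eq_one'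
    rw [← Ideal.mem_span_singleton, ← hI, ← Ideal.Quotient.eq, map_one]
    have h2 : ((Units.map (Ideal.Quotient.mk I).toMonoidHom u : (𝓞 F ⧸ I)ˣ) : 𝓞 F ⧸ I) ^
        Nat.card (𝓞 F ⧸ I)ˣ = 1 := by
      rw [← Units.val_pow_eq_pow_val, h1, Units.val_one]
    rw [Units.val_pow_eq_pow_val, map_pow]
    exact h2

end Pool.Agent.Y18.LC
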