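import Mathlib
import Pool.Agent.Y18.LC.Loc

/-!
# Project LC: the groups of relative units close to `1`
-/

set_option autoImplicit false

namespace Pool.Agent.Y18.LC

open Finset NumberField IsDedekindDomain Module

variable {k F : Type} [Field k] [NumberField k] [Field F] [NumberField F] [Algebra k F]

/-- the norm from `F` to `F₀` -/
noncomputable def Nm (F₀ : IntermediateField ℚ F) : Fˣ →* Fˣ :=
  (Units.map (algebraMap F₀ F).toMonoidHom).comp (Units.map (Algebra.norm F₀))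

lemma coe_Nm (F₀ : IntermediateField ℚ F) (u : Fˣ) :
    (Nm F₀ u : F) = algebraMap F₀ F (Algebra.norm F₀ (u : F)) := rfl

lemma Nm_mem (F₀ : IntermediateField ℚ F) (u : Fˣ) : (Nm F₀ u : F) ∈ F₀ := by
  rw [coe_Nm]
  exact (Algebra.norm F₀ (u : F)).2

lemma Nm_of_mem (F₀ : IntermediateField ℚ F) {u : Fˣ} (hu : (u : F) ∈ F₀) :
    Nm F₀ u = u ^ finrank F₀ F := by
  ext
  rw [coe_Nm, Units.val_pow_eq_pow_val]
  have h1 : (u : F) = algebraMap F₀ F ⟨u, hu⟩ := rfl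
  rw [h1, Algebra.norm_algebraMap, map_pow]

lemma Nm_Nm (F₀ : IntermediateField ℚ F) (u : Fˣ) :
    Nm F₀ (Nm F₀ u) = Nm F₀ u ^ finrank F₀ F := Nm_of_mem F₀ (Nm_mem F₀ u)

/-- the units of the ring of integers -/
noncomputable def EU (F : Type) [Field F] [NumberField F] : Subgroup Fˣ :=
  (Units.map (algebraMap (𝓞 F) F).toMonoidHom).range

lemma mem_EU {u : Fˣ} : u ∈ EU F ↔ ∃ e : (𝓞 F)ˣ, ((e : 𝓞 F) : F) = u := by
  unfold EU
  rw [MonoidHom.mem_range]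
  constructor
  · rintro ⟨e, rfl⟩
    exact ⟨e, rfl⟩
  · rintro ⟨e, he⟩
    exact ⟨e, Units.ext he⟩

lemma mem_EU_iff {u : Fˣ} : u ∈ EU F ↔ IsIntegral ℤ (u : F) ∧ IsIntegral ℤ ((u⁻¹ : Fˣ) : F) := by
  rw [mem_EU]
  constructor
  · rintro ⟨e, he⟩
    refine ⟨he ▸ (e : 𝓞 F).2, ?_⟩
    have : ((u⁻¹ : Fˣ) : F) = (((e⁻¹ : (𝓞 F)ˣ) : 𝓞 F) : F) := by
      rw [Units.val_inv_eq_inv_val, ← he]
      refine inv_eq_of_mul_eq_one_right ?_
      rw [← map_mul, Units.mul_inv, map_one]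
    rw [this]
    exact ((e⁻¹ : (𝓞 F)ˣ) : 𝓞 F).2
  · rintro ⟨h1, h2⟩
    refine ⟨⟨⟨u, h1⟩, ⟨((u⁻¹ : Fˣ) : F), h2⟩, ?_, ?_⟩, rfl⟩
    · ext
      exact Units.mul_inv u
    · ext
      exact Units.inv_mul u

/-- congruence to `1` modulo `p ^ i` -/
def Cg (p i : ℕ) (u : Fˣ) : Prop := ∃ y : 𝓞 F, (u : F) = 1 + (p : F) ^ i * y

lemma Cg_iff {p i : ℕ} {u : Fˣ} {e : 𝓞 F} (he : (e : F) = u) :
    Cg p i u ↔ (p : 𝓞 F) ^ i ∣ e - 1 := by
  constructor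
  · rintro ⟨y, hy⟩
    refine ⟨y, ?_⟩
    apply RingOfIntegers.ext
    rw [RingOfIntegers.coe_eq_algebraMap] at he
    rw [RingOfIntegers.coe_eq_algebraMap, RingOfIntegers.coe_eq_algebraMap, map_sub, he, hy,
      map_mul, map_pow, map_natCast, map_one]
    ring
  · rintro ⟨y, hy⟩
    refine ⟨y, ?_⟩
    have h1 := congrArg (fun t : 𝓞 F => algebraMap (𝓞 F) F t) hy
    simp only [map_sub, map_one, map_mul, map_pow, map_natCast] at h1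
    rw [← he, RingOfIntegers.coe_eq_algebraMap, RingOfIntegers.coe_eq_algebraMap]
    linear_combination h1

lemma Cg.mono {p i j : ℕ} (h : i ≤ j) {u : Fˣ} (hu : Cg p j u) : Cg p i u := by
  obtain ⟨y, hy⟩ := hu
  refine ⟨(p : 𝓞 F) ^ (j - i) * y, ?_⟩
  rw [hy, RingOfIntegers.coe_eq_algebraMap, RingOfIntegers.coe_eq_algebraMap, map_mul, map_pow,
    map_natCast, ← mul_assoc, ← pow_add, Nat.add_sub_cancel' h]

/-- the relative units congruent to `1` modulo `p ^ i` -/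
noncomputable def RU (F₀ : IntermediateField ℚ F) (p i : ℕ) : Subgroup Fˣ where
  carrier := {u | u ∈ EU F ∧ Nm F₀ u = 1 ∧ Cg p i u}
  mul_mem' := by
    rintro a b ⟨ha, ha1, ya, hya⟩ ⟨hb, hb1, yb, hyb⟩
    refine ⟨mul_mem ha hb, by rw [map_mul, ha1, hb1, one_mul], ?_⟩
    refine ⟨ya + yb + (p : 𝓞 F) ^ i * (ya * yb), ?_⟩
    rw [Units.val_mul, hya, hyb]
    simp only [RingOfIntegers.coe_eq_algebraMap, map_add, map_mul, map_pow, map_natCast]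
    ring
  one_mem' := ⟨one_mem _, map_one _, 0, by simp⟩
  inv_mem' := by
    rintro a ⟨ha, ha1, ya, hya⟩
    refine ⟨inv_mem ha, by rw [map_inv, ha1, inv_one], ?_⟩
    obtain ⟨e, he⟩ := mem_EU.1 (inv_mem ha)
    refine ⟨-(ya * e), ?_⟩
    rw [RingOfIntegers.coe_eq_algebraMap] at he hya ⊢
    rw [map_neg, map_mul, he]
    have h0 : (a : F) * ((a⁻¹ : Fˣ) : F) = 1 := Units.mul_inv a
    rw [hya] at h0
    linear_combination h0

lemma mem_RU {F₀ : IntermediateField ℚ F} {p i : ℕ} {u : Fˣ} :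
    u ∈ RU F₀ p i ↔ u ∈ EU F ∧ Nm F₀ u = 1 ∧ Cg p i u := Iff.rfl

/-- the `p ^ j`-th powers of the relative units congruent to `1` modulo `p` -/
noncomputable def VU (F₀ : IntermediateField ℚ F) (p j : ℕ) : Subgroup Fˣ :=
  (RU F₀ p 1).map (powMonoidHom (p ^ j))

lemma mem_VU {F₀ : IntermediateField ℚ F} {p j : ℕ} {u : Fˣ} :
    u ∈ VU F₀ p j ↔ ∃ w ∈ RU F₀ p 1, w ^ p ^ j = u := Iff.rfl

lemma RU_mono {F₀ : IntermediateField ℚ F} {p i j : ℕ} (h : i ≤ j) : RU F₀ p j ≤ RU F₀ p i :=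
  fun _ hu => ⟨hu.1, hu.2.1, hu.2.2.mono h⟩

/-- `p ^ j`-th powers of units congruent to `1` modulo `p` -/
lemma Cg_pow {p : ℕ} {u : Fˣ} (hu : u ∈ EU F) (h : Cg p 1 u) (j : ℕ) :
    Cg p (j + 1) (u ^ p ^ j) := by
  obtain ⟨e, he⟩ := mem_EU.1 hu
  have h1 := (Cg_iff he).1 h
  rw [pow_one] at h1
  have h2 : ((((e : 𝓞 F)) ^ p ^ j : 𝓞 F) : F) = ((u ^ p ^ j : Fˣ) : F) := by
    rw [RingOfIntegers.coe_eq_algebraMap] at he ⊢
    rw [map_pow, he, Units.val_pow_eq_pow_val]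
  rw [Cg_iff h2]
  have h3 := dvd_sub_pow_of_dvd_sub h1 j
  rwa [one_pow] at h3

lemma VU_le {F₀ : IntermediateField ℚ F} {p : ℕ} (j : ℕ) : VU F₀ p j ≤ RU F₀ p (j + 1) := by
  rintro _ ⟨w, hw, rfl⟩
  exact ⟨pow_mem hw.1 _, by
    rw [powMonoidHom_apply, map_pow, hw.2.1, one_pow], Cg_pow hw.1 hw.2.2 j⟩

/-- torsion in the units -/
lemma eq_one_of_pow {p : ℕ} (hp : p.Prime) (hp2 : p ≠ 2) (hun : Unram F p) (j : ℕ) {u : Fˣ}
    (hu : u ∈ EU F) (h : u ^ p ^ j = 1) : u = 1 := by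
  obtain ⟨e, he⟩ := mem_EU.1 hu
  have h1 : (e : 𝓞 F) ^ p ^ j = 1 := by
    apply RingOfIntegers.ext
    rw [RingOfIntegers.coe_eq_algebraMap] at he ⊢
    rw [map_pow, he, ← Units.val_pow_eq_pow_val, h, Units.val_one,
      RingOfIntegers.coe_eq_algebraMap, map_one]
  ext
  rw [← he, no_torsion' hp hp2 hun j h1, RingOfIntegers.coe_eq_algebraMap, map_one, Units.val_one]

/-- uniqueness of roots -/
lemma root_unique {p : ℕ} (hp : p.Prime) (hp2 : p ≠ 2) (hun : Unram F p) (j : ℕ) {u w : Fˣ}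
    (hu : u ∈ EU F) (hw : w ∈ EU F) (h : u ^ p ^ j = w ^ p ^ j) : u = w := by
  have h1 : (u / w) ^ p ^ j = 1 := by rw [div_pow, h, div_self']
  exact div_eq_one.1 (eq_one_of_pow hp hp2 hun j (div_mem hu hw) h1)

lemma Nm_EU (F₀ : IntermediateField ℚ F) {u : Fˣ} (hu : u ∈ EU F) : Nm F₀ u ∈ EU F := by
  rw [mem_EU_iff] at hu ⊢
  refine ⟨?_, ?_⟩
  · rw [coe_Nm]
    exact (Algebra.isIntegral_norm F₀ hu.1).algebraMap
  · rw [← map_inv, coe_Nm]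
    exact (Algebra.isIntegral_norm F₀ hu.2).algebraMap

/-- roots of relative units -/
lemma root_RU {F₀ : IntermediateField ℚ F} {p : ℕ} (hp : p.Prime) (hp2 : p ≠ 2)
    (hun : Unram F p) (j : ℕ) {w : Fˣ} (hw : w ∈ EU F) (h : w ^ p ^ j ∈ RU F₀ p 1) :
    w ∈ RU F₀ p 1 := by
  refine ⟨hw, ?_, ?_⟩
  · apply eq_one_of_pow hp hp2 hun j (Nm_EU F₀ hw)
    rw [← map_pow]
    exact h.2.1
  · obtain ⟨e, he⟩ := mem_EU.1 hw
    rw [Cg_iff he, pow_one]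
    apply dvd_of_pow hp hun j
    have h2 : ((((e : 𝓞 F)) ^ p ^ j : 𝓞 F) : F) = ((w ^ p ^ j : Fˣ) : F) := by
      rw [RingOfIntegers.coe_eq_algebraMap] at he ⊢
      rw [map_pow, he, Units.val_pow_eq_pow_val]
    have h3 := (Cg_iff h2).1 h.2.2
    rwa [pow_one] at h3

/-! ### the action of the Galois group -/

lemma coe_smul' (g : F ≃ₐ[k] F) (u : Fˣ) : ((g • u : Fˣ) : F) = g (u : F) := rfl

lemma smul_EU (g : F ≃ₐ[k] F) {u : Fˣ} (hu : u ∈ EU F) : g • u ∈ EU F := by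
  rw [mem_EU_iff] at hu ⊢
  refine ⟨?_, ?_⟩
  · rw [coe_smul']
    exact hu.1.map (g.toRingEquiv.toRingHom.toIntAlgHom)
  · have : (((g • u)⁻¹ : Fˣ) : F) = g ((u⁻¹ : Fˣ) : F) := by
      rw [← smul_inv', coe_smul']
    rw [this]
    exact hu.2.map (g.toRingEquiv.toRingHom.toIntAlgHom)

lemma smul_Nm (hN : NRM) {F₀ : IntermediateField ℚ F} (g : F ≃ₐ[k] F) (hg : ∀ x ∈ F₀, g x ∈ F₀)
    (u : Fˣ) : Nm F₀ (g • u) = g • Nm F₀ u := by
  ext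
  rw [coe_Nm, coe_smul', coe_smul', coe_Nm]
  exact (hN F F₀).2 g.toRingEquiv hg (u : F)

lemma smul_Cg (g : F ≃ₐ[k] F) {p i : ℕ} {u : Fˣ} (hu : Cg p i u) : Cg p i (g • u) := by
  obtain ⟨y, hy⟩ := hu
  refine ⟨⟨g y, y.2.map (g.toRingEquiv.toRingHom.toIntAlgHom)⟩, ?_⟩
  rw [coe_smul', hy, map_add, map_one, map_mul, map_pow, map_natCast]
  rfl

lemma smul_RU (hN : NRM) {F₀ : IntermediateField ℚ F} (g : F ≃ₐ[k] F) (hg : ∀ x ∈ F₀, g x ∈ F₀)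
    {p i : ℕ} {u : Fˣ} (hu : u ∈ RU F₀ p i) : g • u ∈ RU F₀ p i := by
  refine ⟨smul_EU g hu.1, ?_, smul_Cg g hu.2.2⟩
  rw [smul_Nm hN g hg, hu.2.1, smul_one]

lemma smul_VU (hN : NRM) {F₀ : IntermediateField ℚ F} (g : F ≃ₐ[k] F) (hg : ∀ x ∈ F₀, g x ∈ F₀)
    {p j : ℕ} {u : Fˣ} (hu : u ∈ VU F₀ p j) : g • u ∈ VU F₀ p j := by
  obtain ⟨w, hw, rfl⟩ := hu
  refine ⟨g • w, smul_RU hN g hg hw, ?_⟩
  rw [powMonoidHom_apply, powMonoidHom_apply, smul_pow']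

/-- finiteness of `RU / VU` -/
lemma finite_reps {F₀ : IntermediateField ℚ F} {p : ℕ} (hp : p.Prime) (hp2 : p ≠ 2)
    (hun : Unram F p) (j : ℕ) :
    ∃ R : Finset Fˣ, ∀ u ∈ RU F₀ p 1, ∃ r ∈ R, u / r ∈ VU F₀ p j := by
  classical
  let S : Subgroup (𝓞 F)ˣ := (powMonoidHom (p ^ j)).range
  have : Group.FG (𝓞 F)ˣ := Group.fg_iff_monoid_fg.2 inferInstance
  have hQ : Finite ((𝓞 F)ˣ ⧸ S) := by
    apply CommGroup.finite_of_fg_isMulTorsion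
    intro q
    obtain ⟨e, rfl⟩ := QuotientGroup.mk_surjective q
    rw [isOfFinOrder_iff_pow_eq_one]
    refine ⟨p ^ j, pow_pos hp.pos _, ?_⟩
    rw [← QuotientGroup.mk_pow, QuotientGroup.eq_one_iff]
    exact ⟨e, rfl⟩
  have := Fintype.ofFinite ((𝓞 F)ˣ ⧸ S)
  obtain ⟨R, -, -, hR⟩ := rep_lemma (RU F₀ p 1) (Finset.univ : Finset ((𝓞 F)ˣ ⧸ S))
    (fun u q => ∃ e : (𝓞 F)ˣ, ((e : 𝓞 F) : F) = u ∧ (e : (𝓞 F)ˣ ⧸ S) = q)
    (fun u hu => by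
      obtain ⟨e, he⟩ := mem_EU.1 hu.1
      exact ⟨_, mem_univ _, e, he, rfl⟩)
    (fun u => u ∈ VU F₀ p j)
    (fun u hu u' hu' t => by
      rintro ⟨e, he, rfl⟩ ⟨e', he', h⟩
      rw [QuotientGroup.eq] at h
      obtain ⟨w, hw⟩ := h
      have hw' : w ^ p ^ j = e'⁻¹ * e := hw
      let w' : Fˣ := Units.map (algebraMap (𝓞 F) F).toMonoidHom w
      have h1 : w' ^ p ^ j = u / u' := by
        ext
        rw [div_eq_mul_inv, mul_comm, Units.val_mul, Units.val_inv_eq_inv_val, ← he, ← he',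
          Units.val_pow_eq_pow_val]
        show (algebraMap (𝓞 F) F (w : 𝓞 F)) ^ p ^ j = _
        rw [← map_pow, ← Units.val_pow_eq_pow_val, hw', Units.val_mul, map_mul]
        congr 1
        refine (inv_eq_of_mul_eq_one_right ?_).symm
        show algebraMap (𝓞 F) F (e' : 𝓞 F) * _ = 1
        rw [← map_mul, Units.mul_inv, map_one]
      refine ⟨w', ?_, h1⟩
      apply root_RU hp hp2 hun j ⟨w, rfl⟩
      rw [h1]
      exact div_mem hu hu')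
  exact ⟨R, hR⟩

end Pool.Agent.Y18.LC
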