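import Mathlib
import Pool.Agent.Y18.LC.Grp
import Pool.Agent.Y18.LC.Stm2

/-!
# Project LC: the invariants of `RU / VU`
-/

set_option autoImplicit false

namespace Pool.Agent.Y18.LC

open Finset NumberField IsDedekindDomain Module

variable {k F : Type} [Field k] [NumberField k] [Field F] [NumberField F] [Algebra k F]

/-- an invariant class, after raising to the power `n`, is a product of an element of `k` and a
`p ^ j`-th power -/
lemma inv1 (hN : NRM) (hG : IsGalois k F) {F₀ : IntermediateField ℚ F}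
    (hF₀ : ∀ g : F ≃ₐ[k] F, ∀ x ∈ F₀, g x ∈ F₀) {p : ℕ} (hp : p.Prime) (hp2 : p ≠ 2)
    (hun : Unram F p) (j : ℕ) {u : Fˣ} (hu : u ∈ RU F₀ p (j + 1))
    (hinv : ∀ g : F ≃ₐ[k] F, g • u / u ∈ VU F₀ p j) :
    ∃ (c : Fˣ) (a : kˣ), Nm F₀ c = 1 ∧
      Units.map (algebraMap k F).toMonoidHom a * c ^ p ^ j = u ^ finrank F₀ F := by
  choose y hy hyu using hinv
  have hyu' : ∀ g, y g ^ p ^ j = g • u / u := fun g => hyu g
  have hcoc : groupCohomology.IsMulCocycle₁ y := by
    intro g h
    apply root_unique hp hp2 hun j (hy (g * h)).1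
      (mul_mem (smul_EU g (hy h).1) (hy g).1)
    rw [mul_pow, ← smul_pow', hyu', hyu', hyu', smul_div', mul_smul, div_mul_div_cancel]
  obtain ⟨c, hc⟩ := groupCohomology.isMulCoboundary₁_of_isMulCocycle₁_of_aut_to_units y hcoc
  set n := finrank F₀ F with hn
  have hNc : ∀ g : F ≃ₐ[k] F, g • Nm F₀ c = Nm F₀ c := by
    intro g
    rw [← smul_Nm hN g (hF₀ g)]
    have h1 : g • c = y g * c := by rw [← hc g, div_mul_cancel]
    rw [h1, map_mul, (hy g).2.1, one_mul]
  set c' : Fˣ := c ^ n / Nm F₀ c with hc'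
  have hc'1 : Nm F₀ c' = 1 := by
    rw [hc', map_div, map_pow, Nm_Nm, div_self']
  have hgc' : ∀ g : F ≃ₐ[k] F, g • c' = y g ^ n * c' := by
    intro g
    have h1 : g • c = y g * c := by rw [← hc g, div_mul_cancel]
    rw [hc', smul_div', smul_pow', hNc, h1, mul_pow, mul_div_assoc]
  have hfix : ∀ g : F ≃ₐ[k] F, g • (u ^ n / c' ^ p ^ j) = u ^ n / c' ^ p ^ j := by
    intro g
    have h1 : g • u = y g ^ p ^ j * u := by rw [hyu', div_mul_cancel]
    rw [smul_div', smul_pow', smul_pow', hgc', h1, mul_pow, mul_pow, ← pow_mul, ← pow_mul,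
      mul_comm (p ^ j) n, mul_div_mul_left_eq_div]
  have hmem : ((u ^ n / c' ^ p ^ j : Fˣ) : F) ∈ Set.range (algebraMap k F) := by
    rw [IsGalois.mem_range_algebraMap_iff_fixed]
    intro g
    have := congrArg (fun t : Fˣ => (t : F)) (hfix g)
    exact this
  obtain ⟨a, ha⟩ := hmem
  have ha0 : a ≠ 0 := by
    rintro rfl
    rw [map_zero] at ha
    exact (u ^ n / c' ^ p ^ j : Fˣ).ne_zero ha.symm
  refine ⟨c', Units.mk0 a ha0, hc'1, ?_⟩
  have h2 : Units.map (algebraMap k F).toMonoidHom (Units.mk0 a ha0) = u ^ n / c' ^ p ^ j := by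
    ext
    exact ha
  rw [h2, div_mul_cancel]

lemma val_EU (w : HeightOneSpectrum (𝓞 F)) {u : Fˣ} (hu : u ∈ EU F) : w.valuation F (u : F) = 1 := by
  obtain ⟨e, he⟩ := mem_EU.1 hu
  have h1 : w.valuation F ((e : 𝓞 F) : F) ≤ 1 := w.valuation_le_one (e : 𝓞 F)
  have h2 : w.valuation F (((e⁻¹ : (𝓞 F)ˣ) : 𝓞 F) : F) ≤ 1 := w.valuation_le_one _
  have h3 : w.valuation F ((e : 𝓞 F) : F) * w.valuation F (((e⁻¹ : (𝓞 F)ˣ) : 𝓞 F) : F) = 1 := by
    rw [← map_mul, RingOfIntegers.coe_eq_algebraMap, RingOfIntegers.coe_eq_algebraMap, ← map_mul,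
      Units.mul_inv, map_one, map_one]
  rw [← he]
  refine le_antisymm h1 ?_
  calc (1 : WithZero (Multiplicative ℤ)) = _ := h3.symm
    _ ≤ w.valuation F ((e : 𝓞 F) : F) * 1 := mul_le_mul_right h2 _
    _ = _ := mul_one _

/-- the condition on the ramification: a prime of `k` ramified in `F` is the only one above its
restriction to `K` -/
def Ram (K k F : Type) [Field K] [NumberField K] [Field k] [NumberField k] [Field F]
    [NumberField F] [Algebra K k] [Algebra k F] : Prop :=
  ∀ v : HeightOneSpectrum (𝓞 k), (∃ w : HeightOneSpectrum (𝓞 F), ∀ x : k,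
        w.valuation F (algebraMap k F x) = v.valuation k x) ∨
      (∀ v' : HeightOneSpectrum (𝓞 k), v'.asIdeal.comap (algebraMap (𝓞 K) (𝓞 k)) =
        v.asIdeal.comap (algebraMap (𝓞 K) (𝓞 k)) → v' = v)

/-- the divisor of the element of `k` is divisible by `p ^ j` -/
lemma inv2 (hN : NRM) (hS : NSP2) {K : Type} [Field K] [NumberField K] [Algebra K k]
    (hR : Ram K k F) {F₀ : IntermediateField ℚ F}
    (hK : ∀ x : K, algebraMap k F (algebraMap K k x) ∈ F₀) {p : ℕ} (j : ℕ)
    (v : HeightOneSpectrum (𝓞 k))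
    {u c : Fˣ} {a : kˣ} (hu : u ∈ EU F) (hu1 : Nm F₀ u = 1) (hc : Nm F₀ c = 1)
    (h : Units.map (algebraMap k F).toMonoidHom a * c ^ p ^ j = u) :
    ∃ i : ℤ, v.valuation k (a : k) = WithZero.exp (((p ^ j : ℕ) : ℤ) * i) := by
  rcases hR v with ⟨w, hw⟩ | huq
  · have h1 : w.valuation F (algebraMap k F a) * w.valuation F (c : F) ^ p ^ j = 1 := by
      rw [← val_EU w hu, ← h]
      simp
    have hc0 : w.valuation F (c : F) ≠ 0 := (Valuation.ne_zero_iff _).2 c.ne_zero
    refine ⟨-WithZero.log (w.valuation F (c : F)), ?_⟩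
    rw [hw] at h1
    have h2 : w.valuation F (c : F) ^ p ^ j =
        WithZero.exp (((p ^ j : ℕ) : ℤ) * WithZero.log (w.valuation F (c : F))) := by
      conv_lhs => rw [← WithZero.exp_log hc0]
      rw [← WithZero.exp_nsmul]
      simp
    rw [h2] at h1
    rw [mul_neg, WithZero.exp_neg]
    exact eq_inv_of_mul_eq_one_left h1
  · have hNa : Nm F₀ (Units.map (algebraMap k F).toMonoidHom a) = 1 := by
      have := congrArg (Nm F₀) h
      rw [map_mul, map_pow, hc, hu1, one_pow, mul_one] at this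
      exact this
    have key : ∀ b : kˣ, Nm F₀ (Units.map (algebraMap k F).toMonoidHom b) = 1 →
        1 ≤ v.valuation k (b : k) := by
      intro b hb
      refine hS K k v huq b (finrank F₀ F) ?_
      intro s hs hint
      have hs0 : ((s : 𝓞 K) : K) ≠ 0 := RingOfIntegers.coe_ne_zero_iff.2 hs
      have hs' : algebraMap k F (algebraMap K k s) ≠ 0 := by
        rw [Ne, map_eq_zero, map_eq_zero]
        exact hs0
      have h3 : IsIntegral ℤ (algebraMap k F (algebraMap K k s * b)) := hint.algebraMap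
      have h4 : algebraMap k F (algebraMap K k s * b) ≠ 0 := by
        rw [map_mul]
        exact mul_ne_zero hs' ((Units.map (algebraMap k F).toMonoidHom b).ne_zero)
      have h5 := (hN F F₀).1 _ h3 h4
      have h6 : algebraMap F₀ F (Algebra.norm F₀ (algebraMap k F (algebraMap K k s * b))) =
          (algebraMap k F (algebraMap K k s)) ^ finrank F₀ F := by
        rw [map_mul, map_mul]
        have h7 : Algebra.norm F₀ (algebraMap k F (algebraMap K k s)) =
            (⟨algebraMap k F (algebraMap K k s), hK s⟩ : F₀) ^ finrank F₀ F := by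
          rw [← Algebra.norm_algebraMap]
          rfl
        rw [h7, map_mul, map_pow]
        have h8 : algebraMap F₀ F (Algebra.norm F₀ (algebraMap k F (b : k))) = 1 := by
          have := congrArg (fun t : Fˣ => (t : F)) hb
          exact this
        rw [h8, mul_one]
        rfl
      rw [h6] at h5
      have h9 : (algebraMap k F (algebraMap K k s)) ^ finrank F₀ F /
          algebraMap k F (algebraMap K k s * b) =
          algebraMap k F (algebraMap K k s ^ finrank F₀ F / (algebraMap K k s * b)) := by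
        rw [map_div₀, map_pow]
      rw [h9] at h5
      exact (isIntegral_algebraMap_iff (algebraMap k F).injective).1 h5
    refine ⟨0, ?_⟩
    rw [mul_zero, WithZero.exp_zero]
    refine le_antisymm ?_ (key a hNa)
    have h10 := key a⁻¹ (by rw [map_inv, map_inv, hNa, inv_one])
    rw [Units.val_inv_eq_inv_val, map_inv₀] at h10
    have h11 : v.valuation k (a : k) ≠ 0 := (Valuation.ne_zero_iff _).2 a.ne_zero
    exact (one_le_inv₀ (zero_lt_iff.2 h11)).1 h10

end Pool.Agent.Y18.LC
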