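import Mathlib
import Pool.Agent.Y18.LC.Inv

/-!
# Project LC: the number of the invariants of `RU / VU`
-/

set_option autoImplicit false

namespace Pool.Agent.Y18.LC

open Finset NumberField IsDedekindDomain Module

variable {k F : Type} [Field k] [NumberField k] [Field F] [NumberField F] [Algebra k F]

/-- the units of `k` in `F` -/
noncomputable def ik (k F : Type) [Field k] [NumberField k] [Field F] [NumberField F]
    [Algebra k F] : (𝓞 k)ˣ →* Fˣ :=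
  (Units.map (algebraMap k F).toMonoidHom).comp (Units.map (algebraMap (𝓞 k) k).toMonoidHom)

lemma coe_ik (θ : (𝓞 k)ˣ) : (ik k F θ : F) = algebraMap k F ((θ : 𝓞 k) : k) := rfl

lemma ik_EU (θ : (𝓞 k)ˣ) : ik k F θ ∈ EU F := by
  rw [mem_EU_iff]
  refine ⟨?_, ?_⟩
  · rw [coe_ik]
    exact (θ : 𝓞 k).2.algebraMap
  · rw [← map_inv, coe_ik]
    exact ((θ⁻¹ : (𝓞 k)ˣ) : 𝓞 k).2.algebraMap

lemma smul_ik (g : F ≃ₐ[k] F) (θ : (𝓞 k)ˣ) : g • ik k F θ = ik k F θ := by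
  ext
  rw [coe_smul', coe_ik, g.commutes]

lemma exists_ik {u : Fˣ} (hu : u ∈ EU F) (hk : (u : F) ∈ Set.range (algebraMap k F)) :
    ∃ θ : (𝓞 k)ˣ, ik k F θ = u := by
  obtain ⟨a, ha⟩ := hk
  rw [mem_EU_iff] at hu
  have ha0 : a ≠ 0 := by
    rintro rfl
    rw [map_zero] at ha
    exact u.ne_zero ha.symm
  have h1 : IsIntegral ℤ a := by
    rw [← isIntegral_algebraMap_iff (algebraMap k F).injective, ha]
    exact hu.1
  have h2 : IsIntegral ℤ a⁻¹ := by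
    rw [← isIntegral_algebraMap_iff (algebraMap k F).injective, map_inv₀, ha,
      ← Units.val_inv_eq_inv_val]
    exact hu.2
  refine ⟨⟨⟨a, h1⟩, ⟨a⁻¹, h2⟩, ?_, ?_⟩, ?_⟩
  · ext
    exact mul_inv_cancel₀ ha0
  · ext
    exact inv_mul_cancel₀ ha0
  · ext
    exact ha

lemma of_pow_EU {u : Fˣ} {m : ℕ} (hm : 0 < m) (h : u ^ m ∈ EU F) : u ∈ EU F := by
  rw [mem_EU_iff] at h ⊢
  refine ⟨?_, ?_⟩
  · rw [Units.val_pow_eq_pow_val] at h
    exact IsIntegral.of_pow hm h.1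
  · rw [← inv_pow, Units.val_pow_eq_pow_val, Units.val_pow_eq_pow_val] at h
    exact IsIntegral.of_pow hm h.2

lemma inv3 (hN : NRM) (hG : IsGalois k F) {F₀ : IntermediateField ℚ F}
    (hF₀ : ∀ g : F ≃ₐ[k] F, ∀ x ∈ F₀, g x ∈ F₀) {p : ℕ} (hp : p.Prime)
    (hun : Unram F p) (hn : p.Coprime (finrank F₀ F)) (j : ℕ) {u : Fˣ}
    (hu : u ∈ RU F₀ p (j + 1)) {η : (𝓞 k)ˣ} {ω : Fˣ}
    (h : u ^ finrank F₀ F = ik k F η * ω ^ p ^ j) :
    ∃ θ : (𝓞 k)ˣ, ik k F θ ∈ RU F₀ p (j + 1) ∧ u / ik k F θ ∈ VU F₀ p j := by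
  set n := finrank F₀ F with hnn
  have hωE : ω ∈ EU F := by
    apply of_pow_EU (pow_pos hp.pos j)
    have : ω ^ p ^ j = u ^ n / ik k F η := by rw [h, mul_div_cancel_left]
    rw [this]
    exact div_mem (pow_mem hu.1 _) (ik_EU η)
  -- the norm of `η` is in `k`
  have hNη : ∀ g : F ≃ₐ[k] F, g • Nm F₀ (ik k F η) = Nm F₀ (ik k F η) := by
    intro g
    rw [← smul_Nm hN g (hF₀ g), smul_ik]
  have h1 : (((ik k F η) ^ n / Nm F₀ (ik k F η) : Fˣ) : F) ∈ Set.range (algebraMap k F) := by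
    rw [IsGalois.mem_range_algebraMap_iff_fixed]
    intro g
    have : g • ((ik k F η) ^ n / Nm F₀ (ik k F η)) = (ik k F η) ^ n / Nm F₀ (ik k F η) := by
      rw [smul_div', smul_pow', smul_ik, hNη]
    exact congrArg (fun t : Fˣ => (t : F)) this
  obtain ⟨θ0, hθ0⟩ := exists_ik (div_mem (pow_mem (ik_EU η) n) (Nm_EU F₀ (ik_EU η))) h1
  have hω1 : Nm F₀ (ω ^ n / Nm F₀ ω) = 1 := by rw [map_div, map_pow, Nm_Nm, div_self']
  have hω1E : ω ^ n / Nm F₀ ω ∈ EU F := div_mem (pow_mem hωE n) (Nm_EU F₀ hωE)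
  have h2 : u ^ (n * n) = ik k F θ0 * (ω ^ n / Nm F₀ ω) ^ p ^ j := by
    have h3 := congrArg (Nm F₀) h
    rw [map_pow, hu.2.1, one_pow, map_mul, map_pow] at h3
    rw [pow_mul, h, hθ0, mul_pow, div_pow, ← pow_mul, ← pow_mul, mul_comm n (p ^ j)]
    rw [div_mul_div_comm, ← h3, div_one]
  obtain ⟨t, ht, htu⟩ := exists_exp (F := F) hp hun
  obtain ⟨e, he⟩ := mem_EU.1 hω1E
  set ω2 : Fˣ := (ω ^ n / Nm F₀ ω) ^ t with hω2
  have hω2R : ω2 ∈ RU F₀ p 1 := by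
    refine ⟨pow_mem hω1E t, by rw [hω2, map_pow, hω1, one_pow], ?_⟩
    have h4 : ((((e ^ t : (𝓞 F)ˣ) : 𝓞 F)) : F) = (ω2 : F) := by
      rw [hω2, Units.val_pow_eq_pow_val, Units.val_pow_eq_pow_val, ← he,
        RingOfIntegers.coe_eq_algebraMap, RingOfIntegers.coe_eq_algebraMap, map_pow]
    rw [Cg_iff h4, pow_one]
    exact htu e
  have h5 : u ^ (n * n * t) = ik k F (θ0 ^ t) * ω2 ^ p ^ j := by
    rw [pow_mul, h2, mul_pow, map_pow, hω2, ← pow_mul, ← pow_mul, mul_comm (p ^ j) t]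
  have hV : ω2 ^ p ^ j ∈ VU F₀ p j := ⟨ω2, hω2R, rfl⟩
  have h6 : ik k F (θ0 ^ t) = u ^ (n * n * t) / ω2 ^ p ^ j := by rw [h5, mul_div_cancel_right]
  have h7 : ik k F (θ0 ^ t) ∈ RU F₀ p (j + 1) := by
    rw [h6]
    exact div_mem (pow_mem hu _) (VU_le j hV)
  have h8 : u ^ p ^ j ∈ VU F₀ p j := ⟨u, RU_mono (by omega) hu, rfl⟩
  have hcop : IsCoprime ((n * n * t : ℕ) : ℤ) ((p ^ j : ℕ) : ℤ) := by
    rw [Nat.isCoprime_iff_coprime]
    exact ((Nat.Coprime.mul_right (Nat.Coprime.mul_right hn hn) ht).pow_left j).symm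
  obtain ⟨a, b, hab⟩ := hcop
  refine ⟨(θ0 ^ t) ^ a, ?_, ?_⟩
  · rw [map_zpow]
    exact zpow_mem h7 a
  · have h9 : u / ik k F ((θ0 ^ t) ^ a) = (ω2 ^ p ^ j) ^ a * (u ^ p ^ j) ^ b := by
      rw [map_zpow, h6]
      have h10 : u = u ^ (a * ((n * n * t : ℕ) : ℤ) + b * ((p ^ j : ℕ) : ℤ)) := by
        rw [hab, zpow_one]
      have h11 : u ^ (a * ((n * n * t : ℕ) : ℤ) + b * ((p ^ j : ℕ) : ℤ)) =
          (u ^ (n * n * t)) ^ a * (u ^ p ^ j) ^ b := by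
        rw [zpow_add, mul_comm a, mul_comm b, zpow_mul, zpow_mul, zpow_natCast, zpow_natCast]
      have h12 := h10.trans h11
      generalize u ^ (n * n * t) = x at h12 ⊢
      generalize u ^ p ^ j = y at h12 ⊢
      rw [h12, div_zpow, div_div_eq_mul_div, mul_assoc, mul_div_cancel_left, mul_comm]
    rw [h9]
    exact mul_mem (zpow_mem hV a) (zpow_mem h8 b)

/-- the number of the units of `k` -/
lemma inv4 {F₀ : IntermediateField ℚ F} {p : ℕ} (hp : p.Prime) (hp2 : p ≠ 2) (hun : Unram F p)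
    {B : ℕ} (j : ℕ) (hB : ∃ T : Finset (𝓞 k)ˣ, T.card ≤ B ∧
    ∀ θ : (𝓞 k)ˣ, (p : 𝓞 k) ^ (j + 1) ∣ ((θ : 𝓞 k) - 1) → ∃ τ ∈ T, ∃ ε : (𝓞 k)ˣ,
      (p : 𝓞 k) ∣ ((ε : 𝓞 k) - 1) ∧ θ = τ * ε ^ p ^ j) :
    ∃ R : Finset (𝓞 k)ˣ, R.card ≤ B ∧ ∀ θ : (𝓞 k)ˣ, ik k F θ ∈ RU F₀ p (j + 1) →
      ∃ r ∈ R, ik k F (θ / r) ∈ VU F₀ p j := by
  obtain ⟨T, hT, h⟩ := hB
  obtain ⟨R, hR, -, hR2⟩ := rep_lemma ((RU F₀ p (j + 1)).comap (ik k F)) T
    (fun θ τ => ∃ ε : (𝓞 k)ˣ, θ = τ * ε ^ p ^ j)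
    (fun θ hθ => by
      obtain ⟨τ, hτ, ε, -, hε⟩ := h θ (by
        obtain ⟨y, hy⟩ := (Subgroup.mem_comap.1 hθ).2.2
        rw [coe_ik] at hy
        have hp0 : (p : k) ^ (j + 1) ≠ 0 := pow_ne_zero _ (Nat.cast_ne_zero.2 hp.ne_zero)
        have h1 : algebraMap k F ((((θ : 𝓞 k) : k) - 1) / (p : k) ^ (j + 1)) = (y : F) := by
          rw [map_div₀, map_sub, hy, map_one, map_pow, map_natCast]
          have hp1 : (p : F) ^ (j + 1) ≠ 0 := pow_ne_zero _ (Nat.cast_ne_zero.2 hp.ne_zero)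
          field_simp
          ring
        have h2 : IsIntegral ℤ ((((θ : 𝓞 k) : k) - 1) / (p : k) ^ (j + 1)) := by
          rw [← isIntegral_algebraMap_iff (algebraMap k F).injective, h1]
          exact y.2
        refine ⟨⟨_, h2⟩, ?_⟩
        apply RingOfIntegers.ext
        rw [RingOfIntegers.coe_eq_algebraMap, RingOfIntegers.coe_eq_algebraMap, map_sub, map_mul,
          map_pow, map_natCast, map_one, RingOfIntegers.map_mk, mul_div_cancel₀ _ hp0])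
      exact ⟨τ, hτ, ε, hε⟩)
    (fun θ => ik k F θ ∈ VU F₀ p j)
    (fun θ hθ θ' hθ' τ => by
      rintro ⟨ε, rfl⟩ ⟨ε', rfl⟩
      have h1 : τ * ε ^ p ^ j / (τ * ε' ^ p ^ j) = (ε / ε') ^ p ^ j := by
        rw [mul_div_mul_left_eq_div, div_pow]
      rw [h1, map_pow]
      refine ⟨ik k F (ε / ε'), root_RU hp hp2 hun j (ik_EU _) ?_, rfl⟩
      rw [← map_pow, ← h1, map_div]
      exact RU_mono (by omega) (div_mem hθ hθ'))
  exact ⟨R, hR.trans hT, hR2⟩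

/-- **the number of the invariants** -/
theorem inv_reps (hN : NRM) (hC : CLS) (hS : NSP2) (hG : IsGalois k F)
    {F₀ : IntermediateField ℚ F} (hF₀ : ∀ g : F ≃ₐ[k] F, ∀ x ∈ F₀, g x ∈ F₀) {p : ℕ}
    (hp : p.Prime) (hp2 : p ≠ 2) (hun : Unram F p) (hn : p.Coprime (finrank F₀ F))
    {K : Type} [Field K] [NumberField K] [Algebra K k]
    (hram : Ram K k F) (hK : ∀ x : K, algebraMap k F (algebraMap K k x) ∈ F₀)
    {B : ℕ} (j : ℕ) (hB : ∃ T : Finset (𝓞 k)ˣ, T.card ≤ B ∧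
    ∀ θ : (𝓞 k)ˣ, (p : 𝓞 k) ^ (j + 1) ∣ ((θ : 𝓞 k) - 1) → ∃ τ ∈ T, ∃ ε : (𝓞 k)ˣ,
      (p : 𝓞 k) ∣ ((ε : 𝓞 k) - 1) ∧ θ = τ * ε ^ p ^ j) :
    ∃ R : Finset Fˣ, R.card ≤ Nat.card (ClassGroup (𝓞 k)) * B ∧ ∀ u ∈ RU F₀ p (j + 1),
      (∀ g : F ≃ₐ[k] F, g • u / u ∈ VU F₀ p j) → ∃ r ∈ R, u / r ∈ VU F₀ p j := by
  classical
  obtain ⟨R₂, hR₂, h₂⟩ := inv4 (k := k) (F₀ := F₀) hp hp2 hun j hB
  obtain ⟨T, hT, hTa⟩ := hC k (p ^ j) (pow_pos hp.pos j)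
  let I : Subgroup Fˣ :=
    { carrier := {u | u ∈ RU F₀ p (j + 1) ∧ ∀ g : F ≃ₐ[k] F, g • u / u ∈ VU F₀ p j}
      mul_mem' := by
        rintro a b ⟨ha, ha'⟩ ⟨hb, hb'⟩
        refine ⟨mul_mem ha hb, fun g => ?_⟩
        rw [smul_mul', mul_div_mul_comm]
        exact mul_mem (ha' g) (hb' g)
      one_mem' := ⟨one_mem _, fun g => by rw [smul_one, div_one]; exact one_mem _⟩
      inv_mem' := by
        rintro a ⟨ha, ha'⟩
        refine ⟨inv_mem ha, fun g => ?_⟩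
        rw [smul_inv', inv_div_inv, ← inv_div]
        exact inv_mem (ha' g) }
  obtain ⟨R₁, hR₁, -, h₁⟩ := rep_lemma I T
    (fun u t => ∃ (η : (𝓞 k)ˣ) (ω : Fˣ), u ^ finrank F₀ F =
      Units.map (algebraMap k F).toMonoidHom t * ik k F η * ω ^ p ^ j)
    (fun u hu => by
      obtain ⟨c, a, hc, hac⟩ := inv1 hN hG hF₀ hp hp2 hun j hu.1 hu.2
      obtain ⟨t, ht, η, b, hb⟩ := hTa a (fun v =>
        inv2 hN hS hram hK j v (pow_mem hu.1.1 _) (by rw [map_pow, hu.1.2.1, one_pow]) hc hac)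
      refine ⟨t, ht, η, Units.map (algebraMap k F).toMonoidHom b * c, ?_⟩
      rw [← hac, mul_pow, ← mul_assoc]
      congr 1
      ext
      have := congrArg (algebraMap k F) hb
      rw [map_mul, map_mul, map_pow] at this
      exact this)
    (fun u => ∃ θ : (𝓞 k)ˣ, ik k F θ ∈ RU F₀ p (j + 1) ∧ u / ik k F θ ∈ VU F₀ p j)
    (fun u hu u' hu' t => by
      rintro ⟨η, ω, h⟩ ⟨η', ω', h'⟩
      apply inv3 hN hG hF₀ hp hun hn j (div_mem hu.1 hu'.1) (η := η / η') (ω := ω / ω')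
      rw [div_pow, h, h', map_div, div_pow, mul_assoc, mul_assoc, mul_div_mul_left_eq_div,
        mul_div_mul_comm])
  refine ⟨image₂ (fun a b => a * ik k F b) R₁ R₂, ?_, ?_⟩
  · refine (card_image₂_le _ _ _).trans (Nat.mul_le_mul (hR₁.trans hT) hR₂)
  · intro u hu hinv
    obtain ⟨r₁, hr₁, θ, hθ, hθu⟩ := h₁ u ⟨hu, hinv⟩
    obtain ⟨r₂, hr₂, h3⟩ := h₂ θ hθ
    refine ⟨r₁ * ik k F r₂, mem_image₂_of_mem hr₁ hr₂, ?_⟩
    have : u / (r₁ * ik k F r₂) = (u / r₁ / ik k F θ) * ik k F (θ / r₂) := by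
      rw [map_div, div_mul_div_cancel, div_div]
    rw [this]
    exact mul_mem hθu h3

end Pool.Agent.Y18.LC
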