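import Mathlib
import Pool.Agent.Y18.LC.Inv2

/-!
# Project LC: the bound for the bad subgroups
-/

set_option autoImplicit false

namespace Pool.Agent.Y18.LC

open Finset NumberField IsDedekindDomain Module

/-- the exponent of a `p`-group with few elements -/
lemma exp_lemma {M : Type*} [CommGroup M] (V : Subgroup M) {p : ℕ} (hp : p.Prime) (u : M) (n : ℕ)
    (hu : u ^ p ^ n ∈ V) (R : Finset M) (hR : ∀ i : ℕ, ∃ r ∈ R, u ^ i / r ∈ V) {c : ℕ}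
    (hc : R.card ≤ c) : u ^ p ^ c ∈ V := by
  classical
  choose f hf hfu using hR
  obtain ⟨i, hi, i', hi', hne, heq⟩ := Finset.exists_ne_map_eq_of_card_lt_of_maps_to
    (s := Finset.range (R.card + 1)) (t := R) (by rw [card_range]; omega) (f := f)
    (fun i _ => hf i)
  wlog hlt : i < i' generalizing i i'
  · exact this i' hi' i hi (Ne.symm hne) heq.symm (by omega)
  have h1 : u ^ (i' - i) ∈ V := by
    have h2 := div_mem (hfu i') (hfu i)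
    rw [heq, div_div_div_cancel_right, ← zpow_natCast, ← zpow_natCast, div_eq_mul_inv,
      ← zpow_sub] at h2
    have h3 : ((i' : ℤ) - i) = ((i' - i : ℕ) : ℤ) := by omega
    rwa [h3, zpow_natCast] at h2
  have h4 : u ^ Nat.gcd (i' - i) (p ^ n) ∈ V := by
    have h5 := Nat.gcd_eq_gcd_ab (i' - i) (p ^ n)
    have h6 : u ^ Nat.gcd (i' - i) (p ^ n) =
        (u ^ (i' - i)) ^ Nat.gcdA (i' - i) (p ^ n) * (u ^ p ^ n) ^ Nat.gcdB (i' - i) (p ^ n) := by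
      rw [← zpow_natCast, h5, zpow_add, zpow_mul, zpow_mul, zpow_natCast, zpow_natCast]
    rw [h6]
    exact mul_mem (zpow_mem h1 _) (zpow_mem hu _)
  obtain ⟨e, -, he⟩ := (Nat.dvd_prime_pow hp).1 (Nat.gcd_dvd_right (i' - i) (p ^ n))
  have h7 : p ^ e ≤ i' - i := by
    rw [← he]
    exact Nat.le_of_dvd (by omega) (Nat.gcd_dvd_left _ _)
  have h8 : e < p ^ e := Nat.lt_pow_self hp.one_lt
  have h9 : i' < R.card + 1 := mem_range.1 hi'
  have h10 : e ≤ c := by omega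
  rw [he] at h4
  have h11 : u ^ p ^ c = (u ^ p ^ e) ^ p ^ (c - e) := by
    rw [← pow_mul, ← pow_add, Nat.add_sub_cancel' h10]
  rw [h11]
  exact pow_mem h4 _

variable {k : Type} [Field k] [NumberField k]

/-- some relative unit of the field fixed by `H`, close to `1`, is not a `p`-th power -/
def Bad {F : Type} [Field F] [NumberField F] [Algebra k F] (F₀ : IntermediateField ℚ F) (p n : ℕ)
    (H : Subgroup (F ≃ₐ[k] F)) : Prop :=
  ∃ z ∈ RU F₀ p (n + 1), (∀ h ∈ H, h • z = z) ∧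
    ∀ w ∈ RU F₀ p 1, (∀ h ∈ H, h • w = w) → w ^ p ≠ z

theorem core (hA : ANN) (hU : UNC) (hN : NRM) (hC : CLS) (hS : NSP2) (k : Type) [Field k]
    [NumberField k] (p : ℕ) [hpf : Fact p.Prime] (hp2 : p ≠ 2) (B : ℕ)
    (hB : ∀ j : ℕ, ∃ T : Finset (𝓞 k)ˣ, T.card ≤ B ∧
      ∀ θ : (𝓞 k)ˣ, (p : 𝓞 k) ^ (j + 1) ∣ ((θ : 𝓞 k) - 1) → ∃ τ ∈ T, ∃ ε : (𝓞 k)ˣ,
        (p : 𝓞 k) ∣ ((ε : 𝓞 k) - 1) ∧ θ = τ * ε ^ p ^ j) :
    ∃ W : ℕ, ∀ m : ℕ, ∃ n : ℕ, ∀ (F : Type) [Field F] [NumberField F] [Algebra k F]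
      (F₀ : IntermediateField ℚ F) (K : Type) [Field K] [NumberField K] [Algebra K k],
      (∀ x : K, algebraMap k F (algebraMap K k x) ∈ F₀) →
      IsGalois k F → (∀ g h : F ≃ₐ[k] F, g * h = h * g) →
      (∀ g : F ≃ₐ[k] F, g ^ p = 1) → Nat.card (F ≃ₐ[k] F) = p ^ m →
      (∀ g : F ≃ₐ[k] F, ∀ x ∈ F₀, g x ∈ F₀) → ¬ p ∣ finrank F₀ F → Unram F p → Ram K k F →
      ∀ 𝓗 : Finset (Subgroup (F ≃ₐ[k] F)), (∀ H ∈ 𝓗, H.index = p ∧ Bad F₀ p n H) →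
        𝓗.card * (p - 1) + p ^ (m - W) ≤ p ^ m := by
  classical
  have hp : p.Prime := hpf.out
  set c : ℕ := Nat.card (ClassGroup (𝓞 k)) * B with hc
  obtain ⟨W, hW⟩ := hA p c
  refine ⟨W, fun m => ?_⟩
  obtain ⟨N, hNN⟩ := hU p hp2 m c W
  refine ⟨N + 1, ?_⟩
  intro F _ _ _ F₀ K _ _ _ hK hG hcomm hexp hcard hF₀ hn hun hram 𝓗 h𝓗
  set n := N + 1 with hnn
  letI : CommGroup (F ≃ₐ[k] F) := { (inferInstance : Group (F ≃ₐ[k] F)) with mul_comm := hcomm }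
  letI : Fintype (F ≃ₐ[k] F) := Fintype.ofFinite _
  have hn' : p.Coprime (finrank F₀ F) := (hp.coprime_iff_not_dvd).2 hn
  obtain ⟨R, hR, hR2⟩ := inv_reps hN hC hS hG hF₀ hp hp2 hun hn' hram hK n (hB n)
  obtain ⟨R', hR'⟩ := finite_reps (F₀ := F₀) hp hp2 hun n
  have hPG : IsPGroup p (F ≃ₐ[k] F) := by
    intro g
    exact ⟨1, by rw [pow_one]; exact hexp g⟩
  have hpow : ∀ u ∈ RU F₀ p (n + 1), u ^ p ^ n ∈ VU F₀ p n :=
    fun u hu => ⟨u, RU_mono (by omega) hu, rfl⟩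
  obtain ⟨x, hx, w, hw, hxw⟩ := hW (F ≃ₐ[k] F) hPG Fˣ (RU F₀ p (n + 1)) (VU F₀ p n) (VU_le n)
    (fun g u hu => smul_RU hN g (hF₀ g) hu) (fun g u hu => smul_VU hN g (hF₀ g) hu)
    ⟨n, hpow⟩ ⟨R', fun u hu => hR' u (RU_mono (by omega) hu)⟩ ⟨R, hR, hR2⟩
  refine hNN n (by omega) (F ≃ₐ[k] F) hexp ?_ Fˣ (VU F₀ p n)
    (fun g u hu => smul_VU hN g (hF₀ g) hu) x w hw hxw 𝓗 ?_
  · rw [← Nat.card_eq_fintype_card]
    exact hcard
  · intro H hH
    obtain ⟨hHi, z, hz, hzH, hzw⟩ := h𝓗 H hH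
    refine ⟨hHi, z, hzH, hpow z hz, ?_, ?_, hx z hz⟩
    · rintro ⟨w, hw, hwz⟩
      have hwz' : w ^ p ^ n = z ^ p ^ (n - 1) := hwz
      have h1 : (w ^ p) ^ p ^ (n - 1) = z ^ p ^ (n - 1) := by
        rw [← pow_mul, ← pow_succ', show n - 1 + 1 = n by omega, hwz']
      have h2 : w ^ p = z := root_unique hp hp2 hun (n - 1) (pow_mem hw.1 _) hz.1 h1
      refine hzw w hw (fun h hh => ?_) h2
      refine root_unique hp hp2 hun 1 (smul_EU h hw.1) hw.1 ?_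
      rw [pow_one, ← smul_pow', h2, hzH h hh]
    · have hprod : ∏ g : F ≃ₐ[k] F, g • z ∈ RU F₀ p (n + 1) :=
        prod_mem fun g _ => smul_RU hN g (hF₀ g) hz
      have hinv : ∀ g : F ≃ₐ[k] F, g • (∏ g' : F ≃ₐ[k] F, g' • z) = ∏ g' : F ≃ₐ[k] F, g' • z := by
        intro g
        rw [Finset.smul_prod']
        refine Fintype.prod_bijective (fun g' => g * g') (Group.mulLeft_bijective g) _ _
          (fun g' => ?_)
        rw [smul_smul]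
      refine exp_lemma (VU F₀ p n) hp _ n (hpow _ hprod) R (fun i => ?_) hR
      apply hR2 _ (pow_mem hprod i)
      intro g
      rw [smul_pow', hinv, div_self']
      exact one_mem _

end Pool.Agent.Y18.LC
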