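import Mathlib
import Pool.Agent.Y18.LC.Core

/-!
# Project LC: the good subgroups
-/

set_option autoImplicit false

namespace Pool.Agent.Y18.LC

open Finset NumberField IsDedekindDomain Module

variable {k F : Type} [Field k] [NumberField k] [Field F] [NumberField F] [Algebra k F]

lemma prod_one_add {S ι : Type*} [CommRing S] (c : S) (t : Finset ι) (f : ι → S) :
    ∃ s : S, ∏ i ∈ t, (1 + c * f i) = 1 + c * s := by
  classical
  induction t using Finset.induction_on with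
  | empty => exact ⟨0, by simp⟩
  | insert a t ha ih =>
    obtain ⟨s, hs⟩ := ih
    exact ⟨f a + s + c * f a * s, by rw [prod_insert ha, hs]; ring⟩

/-- the norm of an element congruent to `1` -/
lemma Nm_Cg {F₀ : IntermediateField ℚ F} {p : ℕ} (hp : p.Prime) {i : ℕ} {u : Fˣ} (h : Cg p i u) :
    Cg p i (Nm F₀ u) := by
  obtain ⟨y, hy⟩ := h
  let Ω := AlgebraicClosure F
  have h1 := Algebra.norm_eq_prod_embeddings F₀ Ω (u : F)
  have h2 : ∀ σ : F →ₐ[F₀] Ω, IsIntegral ℤ (σ (y : F)) := fun σ =>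
    y.2.map (σ.toRingHom.toIntAlgHom)
  obtain ⟨s, hs⟩ := prod_one_add (S := integralClosure ℤ Ω) ((p : integralClosure ℤ Ω) ^ i)
    (Finset.univ : Finset (F →ₐ[F₀] Ω)) (fun σ => ⟨σ (y : F), h2 σ⟩)
  have h3 : algebraMap F Ω (Nm F₀ u : F) = 1 + (p : Ω) ^ i * (s : Ω) := by
    rw [coe_Nm, ← IsScalarTower.algebraMap_apply F₀ F Ω, h1]
    have h4 := congrArg (fun t : integralClosure ℤ Ω => (t : Ω)) hs
    simp only [Subalgebra.coe_prod, Subalgebra.coe_add, Subalgebra.coe_mul, Subalgebra.coe_pow,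
      Subalgebra.coe_one, SubringClass.coe_natCast] at h4
    rw [← h4]
    have h5 : ∀ σ : F →ₐ[F₀] Ω, σ (u : F) = 1 + (p : Ω) ^ i * σ (y : F) := fun σ => by
      rw [hy, map_add, map_one, map_mul, map_pow, map_natCast]
    simp only [h5]
    have h6 := map_prod (integralClosure ℤ Ω).val
      (fun σ : F →ₐ[F₀] Ω => 1 + (p : integralClosure ℤ Ω) ^ i * ⟨σ (y : F), h2 σ⟩) Finset.univ
    refine Eq.trans ?_ h6.symm
    refine Finset.prod_congr rfl fun σ _ => ?_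
    simp
  have hp1 : (p : F) ^ i ≠ 0 := pow_ne_zero _ (Nat.cast_ne_zero.2 hp.ne_zero)
  have hp2 : (p : Ω) ^ i ≠ 0 := pow_ne_zero _ (Nat.cast_ne_zero.2 hp.ne_zero)
  have h5 : algebraMap F Ω (((Nm F₀ u : F) - 1) / (p : F) ^ i) = (s : Ω) := by
    rw [map_div₀, map_sub, h3, map_one, map_pow, map_natCast, add_sub_cancel_left,
      mul_div_cancel_left₀ _ hp2]
  have h6 : IsIntegral ℤ (((Nm F₀ u : F) - 1) / (p : F) ^ i) := by
    rw [← isIntegral_algebraMap_iff (algebraMap F Ω).injective, h5]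
    exact s.2
  refine ⟨⟨_, h6⟩, ?_⟩
  rw [RingOfIntegers.coe_eq_algebraMap, RingOfIntegers.map_mk, mul_div_cancel₀ _ hp1]
  ring

/-- `p`-th roots of units close to `1` -/
lemma loc_root {p : ℕ} (hp : p.Prime) (hp2 : p ≠ 2) {i : ℕ} {w : Fˣ} (hw : w ∈ EU F)
    (h1 : Cg p 1 w) (h : Cg p (i + 1) (w ^ p)) : Cg p i w := by
  obtain ⟨e, he⟩ := mem_EU.1 hw
  have h2 := (Cg_iff he).1 h1
  rw [pow_one] at h2
  obtain ⟨y, hy⟩ := h2
  have he' : ((((e : 𝓞 F)) ^ p : 𝓞 F) : F) = ((w ^ p : Fˣ) : F) := by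
    rw [RingOfIntegers.coe_eq_algebraMap] at he ⊢
    rw [map_pow, he, Units.val_pow_eq_pow_val]
  have h3 := (Cg_iff he').1 h
  rcases i with _ | i
  · rw [Cg_iff he, pow_zero]
    exact one_dvd _
  obtain ⟨z, hz⟩ := pow_loc hp hp2 y
  have h4 : (e : 𝓞 F) = 1 + p * y := by rw [← hy]; ring
  rw [h4, hz] at h3
  have h5 : (p : 𝓞 F) ^ (i + 1 + 1) ∣ (p : 𝓞 F) ^ 2 * (y * (1 + p * z)) := by
    have : (p : 𝓞 F) ^ 2 * (y * (1 + p * z)) = 1 + p ^ 2 * y * (1 + p * z) - 1 := by ring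
    rw [this]
    exact h3
  rw [show i + 1 + 1 = 2 + i by ring, pow_add] at h5
  have hp0 : (p : 𝓞 F) ≠ 0 := Nat.cast_ne_zero.2 hp.ne_zero
  have h6 : (p : 𝓞 F) ^ i ∣ y * (1 + p * z) :=
    (mul_dvd_mul_iff_left (pow_ne_zero 2 hp0)).1 h5
  have h7 : IsCoprime ((p : 𝓞 F) ^ i) (1 + p * z) := by
    apply IsCoprime.pow_left
    exact ⟨-z, 1, by ring⟩
  have h8 : (p : 𝓞 F) ^ i ∣ y := h7.dvd_of_dvd_mul_right h6
  rw [Cg_iff he, hy, pow_succ']
  exact mul_dvd_mul_left _ h8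

lemma good_ind {F₀ : IntermediateField ℚ F} {p n : ℕ} (hp : p.Prime) (hp2 : p ≠ 2)
    {H : Subgroup (F ≃ₐ[k] F)} (hH : ¬ Bad F₀ p n H) (s : ℕ) :
    ∀ u ∈ RU F₀ p (n + 1 + s), (∀ h ∈ H, h • u = u) →
      ∃ w ∈ RU F₀ p 1, (∀ h ∈ H, h • w = w) ∧ w ^ p ^ s = u := by
  induction s with
  | zero =>
    intro u hu hf
    exact ⟨u, RU_mono (by omega) hu, hf, by simp⟩
  | succ s ih =>
    intro u hu hf
    have h1 : ∃ w ∈ RU F₀ p 1, (∀ h ∈ H, h • w = w) ∧ w ^ p = u := by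
      by_contra hcon
      apply hH
      refine ⟨u, RU_mono (by omega) hu, hf, fun w hw hwf hwu => hcon ⟨w, hw, hwf, hwu⟩⟩
    obtain ⟨w, hw, hwf, hwu⟩ := h1
    have h2 : w ∈ RU F₀ p (n + 1 + s) := by
      refine ⟨hw.1, hw.2.1, loc_root hp hp2 hw.1 hw.2.2 ?_⟩
      rw [hwu]
      exact hu.2.2
    obtain ⟨w', hw', hwf', hwu'⟩ := ih w h2 hwf
    refine ⟨w', hw', hwf', ?_⟩
    rw [pow_succ, pow_mul, hwu', hwu]

/-- divisibility in a subfield -/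
lemma dvd_of_Cg {p : ℕ} (hp : p.Prime) {i : ℕ} {θ : (𝓞 k)ˣ} (h : Cg p i (ik k F θ)) :
    (p : 𝓞 k) ^ i ∣ ((θ : 𝓞 k) - 1) := by
  obtain ⟨y, hy⟩ := h
  rw [coe_ik] at hy
  have hp0 : (p : k) ^ i ≠ 0 := pow_ne_zero _ (Nat.cast_ne_zero.2 hp.ne_zero)
  have h1 : algebraMap k F ((((θ : 𝓞 k) : k) - 1) / (p : k) ^ i) = (y : F) := by
    rw [map_div₀, map_sub, hy, map_one, map_pow, map_natCast]
    have hp1 : (p : F) ^ i ≠ 0 := pow_ne_zero _ (Nat.cast_ne_zero.2 hp.ne_zero)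
    field_simp
    ring
  have h2 : IsIntegral ℤ ((((θ : 𝓞 k) : k) - 1) / (p : k) ^ i) := by
    rw [← isIntegral_algebraMap_iff (algebraMap k F).injective, h1]
    exact y.2
  refine ⟨⟨_, h2⟩, ?_⟩
  apply RingOfIntegers.ext
  rw [RingOfIntegers.coe_eq_algebraMap, RingOfIntegers.coe_eq_algebraMap, map_sub, map_mul,
    map_pow, map_natCast, map_one, RingOfIntegers.map_mk, mul_div_cancel₀ _ hp0]

lemma Cg_of_dvd {p i : ℕ} {θ : (𝓞 k)ˣ} (h : (p : 𝓞 k) ^ i ∣ ((θ : 𝓞 k) - 1)) :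
    Cg p i (ik k F θ) := by
  obtain ⟨y, hy⟩ := h
  refine ⟨⟨algebraMap k F (y : k), y.2.algebraMap⟩, ?_⟩
  have h1 : ((θ : 𝓞 k) : k) = 1 + (p : k) ^ i * (y : k) := by
    have h2 := congrArg (fun t : 𝓞 k => algebraMap (𝓞 k) k t) hy
    simp only [map_sub, map_one, map_mul, map_pow, map_natCast] at h2
    rw [RingOfIntegers.coe_eq_algebraMap, RingOfIntegers.coe_eq_algebraMap]
    linear_combination h2
  rw [coe_ik, h1, map_add, map_one, map_mul, map_pow, map_natCast]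
  rfl

lemma ik_injective : Function.Injective (ik k F) := by
  intro a b h
  ext
  have h1 := congrArg (fun t : Fˣ => (t : F)) h
  exact (algebraMap k F).injective h1

/-- **the composites attached to the good subgroups** -/
theorem top_of_good (hN : NRM) {F₀ : IntermediateField ℚ F} (hG : IsGalois k F)
    (hF₀ : ∀ g : F ≃ₐ[k] F, ∀ x ∈ F₀, g x ∈ F₀) {p n : ℕ} (hp : p.Prime) (hp2 : p ≠ 2)
    (hn : ¬ p ∣ finrank F₀ F) {H : Subgroup (F ≃ₐ[k] F)} (hH : ¬ Bad F₀ p n H)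
    {L₀ : IntermediateField ℚ F} {E : IntermediateField k F}
    (hL : E = IntermediateField.fixedField H) (hLE : ∀ x ∈ L₀, x ∈ E)
    (hL' : ∀ x ∈ F₀, x ∈ IntermediateField.fixedField H → x ∈ L₀) (hT : Top L₀ p) :
    Top E p := by
  intro s
  obtain ⟨M, hM⟩ := hT s
  refine ⟨M + (n + 1 + s), fun u hu => ?_⟩
  obtain ⟨uF, huF⟩ : ∃ x : Fˣ, x = ik E F u := ⟨_, rfl⟩
  have hmem : ∀ x : F, x ∈ E ↔ ∀ h ∈ H, h x = x := by
    intro x
    rw [hL, IntermediateField.mem_fixedField_iff]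
  have hfix : ∀ h ∈ H, h • uF = uF := by
    intro h hh
    ext
    rw [coe_smul', huF]
    exact (hmem _).1 (((u : 𝓞 E) : E)).2 h hh
  have huC : Cg p (M + (n + 1 + s)) uF := huF ▸ Cg_of_dvd hu
  have huE : uF ∈ EU F := huF ▸ ik_EU u
  set n' := finrank F₀ F with hn'
  have hNfix : ∀ h ∈ H, h • Nm F₀ uF = Nm F₀ uF := by
    intro h hh
    rw [← smul_Nm hN h (hF₀ h), hfix h hh]
  have hNC : Cg p (M + (n + 1 + s)) (Nm F₀ uF) := Nm_Cg hp huC
  -- the relative part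
  have h1 : uF ^ n' / Nm F₀ uF ∈ RU F₀ p (n + 1 + s) := by
    refine ⟨div_mem (pow_mem huE _) (Nm_EU F₀ huE), ?_, ?_⟩
    · rw [map_div, map_pow, Nm_Nm, div_self']
    · -- congruences
      obtain ⟨e, he⟩ := mem_EU.1 huE
      obtain ⟨f, hf⟩ := mem_EU.1 (Nm_EU F₀ huE)
      have h12 := (Cg_iff he).1 (huC.mono (show n + 1 + s ≤ M + (n + 1 + s) by omega))
      have h13 := (Cg_iff hf).1 (hNC.mono (show n + 1 + s ≤ M + (n + 1 + s) by omega))
      have h14 : (p : 𝓞 F) ^ (n + 1 + s) ∣ (e : 𝓞 F) ^ n' - 1 := by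
        have := sub_dvd_pow_sub_pow (e : 𝓞 F) 1 n'
        rw [one_pow] at this
        exact h12.trans this
      have h15 : (((e ^ n' * f⁻¹ : (𝓞 F)ˣ) : 𝓞 F) : F) = ((uF ^ n' / Nm F₀ uF : Fˣ) : F) := by
        have h18 : Units.map (algebraMap (𝓞 F) F).toMonoidHom e = uF := Units.ext he
        have h19 : Units.map (algebraMap (𝓞 F) F).toMonoidHom f = Nm F₀ uF := Units.ext hf
        have h16 : Units.map (algebraMap (𝓞 F) F).toMonoidHom (e ^ n' * f⁻¹) =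
            uF ^ n' / Nm F₀ uF := by
          rw [map_mul, map_pow, map_inv, div_eq_mul_inv, h18, h19]
        exact congrArg (fun t : Fˣ => (t : F)) h16
      rw [Cg_iff h15, Units.val_mul]
      have h17 : ((e ^ n' : (𝓞 F)ˣ) : 𝓞 F) * ((f⁻¹ : (𝓞 F)ˣ) : 𝓞 F) - 1 =
          (((e : 𝓞 F) ^ n' - 1) - ((f : 𝓞 F) - 1)) * ((f⁻¹ : (𝓞 F)ˣ) : 𝓞 F) := by
        have : (f : 𝓞 F) * ((f⁻¹ : (𝓞 F)ˣ) : 𝓞 F) = 1 := Units.mul_inv f
        rw [Units.val_pow_eq_pow_val]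
        linear_combination this
      rw [h17]
      exact (dvd_sub h14 h13).mul_right _
  obtain ⟨w1, hw1, hw1f, hw1u⟩ := good_ind hp hp2 hH s _ h1 (fun h hh => by
    rw [smul_div', smul_pow', hfix h hh, hNfix h hh])
  -- the norm
  have h2 : (Nm F₀ uF : F) ∈ Set.range (algebraMap L₀ F) := by
    refine ⟨⟨_, hL' _ (Nm_mem F₀ uF) ?_⟩, rfl⟩
    rw [← hL, hmem]
    intro h hh
    exact congrArg (fun t : Fˣ => (t : F)) (hNfix h hh)
  obtain ⟨θ, hθ⟩ := exists_ik (Nm_EU F₀ huE) h2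
  obtain ⟨w2, hw2⟩ := hM θ (by
    apply dvd_of_Cg (F := F) hp
    rw [hθ]
    exact hNC.mono (by omega))
  set w3 : Fˣ := w1 * ik L₀ F w2 with hw3
  have h3 : w3 ^ p ^ s = uF ^ n' := by
    rw [hw3, mul_pow, hw1u, ← map_pow (ik L₀ F), hw2, hθ, div_mul_cancel]
  have hcop : IsCoprime ((n' : ℕ) : ℤ) ((p ^ s : ℕ) : ℤ) := by
    rw [Nat.isCoprime_iff_coprime]
    exact (((hp.coprime_iff_not_dvd).2 hn).pow_left s).symm
  obtain ⟨a, b, hab⟩ := hcop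
  have h4 : (w3 ^ a * uF ^ b) ^ p ^ s = uF := by
    have h5 : uF ^ (a * ((n' : ℕ) : ℤ) + b * ((p ^ s : ℕ) : ℤ)) = uF := by rw [hab, zpow_one]
    rw [zpow_add, mul_comm a, mul_comm b, zpow_mul, zpow_mul, zpow_natCast, zpow_natCast,
      ← h3] at h5
    rw [mul_pow, ← zpow_natCast, ← zpow_natCast, zpow_comm, zpow_natCast, zpow_comm, zpow_natCast]
    exact h5
  have h6 : w3 ^ a * uF ^ b ∈ EU F :=
    mul_mem (zpow_mem (mul_mem hw1.1 (ik_EU w2)) a) (zpow_mem huE b)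
  have h7 : ((w3 ^ a * uF ^ b : Fˣ) : F) ∈ Set.range (algebraMap E F) := by
    refine ⟨⟨_, (hmem _).2 ?_⟩, rfl⟩
    intro h hh
    have h8 : h • (w3 ^ a * uF ^ b) = w3 ^ a * uF ^ b := by
      have h9 : h • ik L₀ F w2 = ik L₀ F w2 := by
        ext
        rw [coe_smul']
        exact (hmem _).1 (hLE _ (((w2 : 𝓞 L₀) : L₀)).2) h hh
      have h10 : h • w3 = w3 := by rw [hw3, smul_mul', hw1f h hh, h9]
      rw [smul_mul', smul_zpow', smul_zpow', h10, hfix h hh]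
    exact congrArg (fun t : Fˣ => (t : F)) h8
  obtain ⟨w5, hw5⟩ := exists_ik h6 h7
  refine ⟨w5, ik_injective (k := E) (F := F) ?_⟩
  rw [map_pow, hw5, h4, huF]

end Pool.Agent.Y18.LC
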