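import Mathlib
import Pool.Agent.Y18.LC.Good
import Pool.Agent.Y18.LC.Stm2
import Pool.Agent.Y44.LC.ANN
import Pool.Agent.Y548.LC.UNC
import Pool.Agent.Y847.LC.CLS
import Pool.Agent.Y847.LC.KB
import Pool.Agent.Y944.LC.TA
import Pool.Agent.Y944.LC.TB
import Pool.Agent.Y944.LC.BRU
import Pool.Agent.Y447.LC.NRM
import Pool.Agent.Y447.LC.SUB
import Pool.Agent.Y37.LC.NSP2
import Pool.Agent.Y899.LC.FLD2

/-!
# Project LC: the field-level statement
-/

set_option autoImplicit false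

namespace Pool.Agent.Y18.LC

open Finset NumberField IsDedekindDomain Module Pool.Agent.H637R2.Leo

/-- `p` is unramified in the subfields -/
lemma units_torsion_sub {F : Type} [Field F] [NumberField F] {E : Type} [Field E] [NumberField E]
    (f : E →+* F) {p : ℕ} (hp : p.Prime) (hp2 : p ≠ 2) (hun : Unram F p) (ζ : (𝓞 E)ˣ)
    (h : ζ ^ p = 1) : ζ = 1 := by
  have h1 : (RingOfIntegers.mapRingHom f (ζ : 𝓞 E)) ^ p = 1 := by
    rw [← map_pow, ← Units.val_pow_eq_pow_val, h, Units.val_one, map_one]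
  have h2 := no_torsion hp hp2 hun h1
  have h3 : RingOfIntegers.mapRingHom f (ζ : 𝓞 E) = RingOfIntegers.mapRingHom f 1 := by
    rw [h2, map_one]
  have h4 : Function.Injective (RingOfIntegers.mapRingHom f) := by
    intro a b hab
    have h5 := congrArg (fun t : 𝓞 F => (t : F)) hab
    simp only [RingOfIntegers.mapRingHom_apply] at h5
    exact RingOfIntegers.ext (f.injective h5)
  exact Units.ext (h4 h3)

/-- **the field-level statement** -/
theorem stepF (k : Type) [Field k] [NumberField k] (p : ℕ) [hpf : Fact p.Prime] (hp2 : p ≠ 2)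
    (hk : Unram k p) (hLk : Leopoldt k p) :
    ∃ W : ℕ, ∀ (m r : ℕ) (F : Type) [Field F] [NumberField F] [Algebra k F]
      (M₀ F₀ : IntermediateField ℚ F) (K : Type) [Field K] [NumberField K] [Algebra K k],
      (∀ x : K, algebraMap k F (algebraMap K k x) ∈ F₀) →
      M₀ ≤ F₀ → IsGalois ℚ F₀ → (∀ g h : F₀ ≃ₐ[ℚ] F₀, g * h = h * g) →
      (∀ g : F₀ ≃ₐ[ℚ] F₀, g ^ p = 1) → finrank ℚ M₀ = p ^ r → finrank ℚ F₀ = p ^ (r + m) →
      IntermediateField.adjoin k (F₀ : Set F) = ⊤ → (M₀ : Set F) ⊆ Set.range (algebraMap k F) →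
      (∃ n : ℕ, finrank ℚ k = n * p ^ r ∧ ¬ p ∣ n) → Unram F p → Ram K k F →
      ∃ 𝓖 : Finset (IntermediateField ℚ F), p ^ (m - W) ≤ 1 + (p - 1) * 𝓖.card ∧
        ∀ L₀ ∈ 𝓖, M₀ ≤ L₀ ∧ L₀ ≤ F₀ ∧ finrank ℚ L₀ = p ^ (r + 1) ∧
          ∃ E : IntermediateField k F, (∀ x ∈ L₀, x ∈ E) ∧ Leopoldt E p := by
  classical
  have hp : p.Prime := hpf.out
  have hTk : Top k p :=
    Pool.Agent.Y944.LC.ta k p (units_torsion_sub (RingHom.id k) hp hp2 hk) hLk
  obtain ⟨B, hB⟩ := Pool.Agent.Y847.LC.kb k p hp2 hk hTk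
  obtain ⟨W, hW⟩ := core Pool.Agent.Y44.LC.ann Pool.Agent.Y548.LC.unc Pool.Agent.Y447.LC.nrm
    Pool.Agent.Y847.LC.cls Pool.Agent.Y37.LC.nsp2 k p hp2 B hB
  refine ⟨W, ?_⟩
  intro m r F _ _ _ M₀ F₀ K _ _ _ hK hMF hGF hcF heF hM hF htop hMk hnk hun hram
  obtain ⟨hG, hcomm, hexp, hcard, hst, hn, hH⟩ := Pool.Agent.Y899.LC.fld2 p m r k F M₀ F₀ hMF hGF
    hcF heF hM hF htop hMk hnk
  obtain ⟨n, hWn⟩ := hW m
  letI : Fintype (F ≃ₐ[k] F) := Fintype.ofFinite _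
  letI : Fintype (Subgroup (F ≃ₐ[k] F)) := Fintype.ofFinite _
  set 𝓢 : Finset (Subgroup (F ≃ₐ[k] F)) := univ.filter (fun H => H.index = p) with h𝓢
  set 𝓗 : Finset (Subgroup (F ≃ₐ[k] F)) := 𝓢.filter (fun H => Bad F₀ p n H) with h𝓗
  set 𝓖' : Finset (Subgroup (F ≃ₐ[k] F)) := 𝓢.filter (fun H => ¬ Bad F₀ p n H) with h𝓖'
  have hS : 𝓢.card * (p - 1) + 1 = p ^ m := by
    letI : CommGroup (F ≃ₐ[k] F) := { (inferInstance : Group (F ≃ₐ[k] F)) with mul_comm := hcomm }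
    have h1 := Pool.Agent.Y447.LC.sub p m (F ≃ₐ[k] F) hexp (by rw [← Nat.card_eq_fintype_card]; exact hcard)
    have h2 : Nat.card {H : Subgroup (F ≃ₐ[k] F) // H.index = p} = 𝓢.card := by
      rw [Nat.card_eq_fintype_card, Fintype.card_subtype]
    rw [← h2]
    exact h1
  have hbad : 𝓗.card * (p - 1) + p ^ (m - W) ≤ p ^ m := by
    refine hWn F F₀ K hK hG hcomm hexp hcard hst hn hun hram 𝓗 (fun H hH' => ?_)
    rw [h𝓗, mem_filter, h𝓢, mem_filter] at hH'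
    exact ⟨hH'.1.2, hH'.2⟩
  have hsum : 𝓗.card + 𝓖'.card = 𝓢.card := Finset.card_filter_add_card_filter_not _
  have hgood : p ^ (m - W) ≤ 1 + (p - 1) * 𝓖'.card := by
    have h1 : 𝓢.card * (p - 1) = 𝓗.card * (p - 1) + 𝓖'.card * (p - 1) := by
      rw [← hsum, add_mul]
    rw [mul_comm (p - 1)]
    omega
  have hch : ∀ H : Subgroup (F ≃ₐ[k] F), ∃ L₀ : IntermediateField ℚ F, H ∈ 𝓖' →
      M₀ ≤ L₀ ∧ L₀ ≤ F₀ ∧ finrank ℚ L₀ = p ^ (r + 1) ∧
      (∀ g : F ≃ₐ[k] F, g ∈ H ↔ ∀ x ∈ L₀, g x = x) ∧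
      ∀ x ∈ F₀, x ∈ IntermediateField.fixedField H → x ∈ L₀ := by
    intro H
    by_cases hH' : H ∈ 𝓖'
    · have h1 : H.index = p := by
        rw [h𝓖', mem_filter, h𝓢, mem_filter] at hH'
        exact hH'.1.2
      obtain ⟨L₀, h2⟩ := hH H h1
      exact ⟨L₀, fun _ => h2⟩
    · exact ⟨⊥, fun h => absurd h hH'⟩
  choose Lf hLf using hch
  refine ⟨𝓖'.image Lf, ?_, ?_⟩
  · rw [Finset.card_image_of_injOn]
    · exact hgood
    · intro H1 hH1 H2 hH2 heq
      have heq' : Lf H1 = Lf H2 := heq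
      ext g
      rw [(hLf H1 hH1).2.2.2.1 g, (hLf H2 hH2).2.2.2.1 g, heq']
  · intro L₀ hL₀
    obtain ⟨H, hH', rfl⟩ := Finset.mem_image.1 hL₀
    obtain ⟨h1, h2, h3, h4, h5⟩ := hLf H hH'
    refine ⟨h1, h2, h3, IntermediateField.fixedField H, ?_, ?_⟩
    · intro x hx
      rw [IntermediateField.mem_fixedField_iff]
      intro g hg
      exact (h4 g).1 hg x hx
    · have hbad' : ¬ Bad F₀ p n H := by
        rw [h𝓖', mem_filter] at hH'
        exact hH'.2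
      have hab : IsAbelianGalois ℚ F₀ :=
        { toIsGalois := hGF
          toIsMulCommutative := ⟨⟨hcF⟩⟩ }
      have hab2 : IsAbelianGalois ℚ (Lf H) :=
        @IsAbelianGalois.of_algHom ℚ (Lf H) F₀ _ _ _ _ _ (IntermediateField.inclusion h2) hab
      have hT : Top (Lf H) p := by
        refine Pool.Agent.Y944.LC.ta (Lf H) p
          (units_torsion_sub (algebraMap (Lf H) F) hp hp2 hun) ?_
        exact Pool.Agent.Y944.LC.bru (Lf H) p inferInstance (fun g h => mul_comm' g h)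
      refine Pool.Agent.Y944.LC.tb _ p ?_
      exact top_of_good Pool.Agent.Y447.LC.nrm hG hst hp hp2 hn hbad' rfl
        (fun x hx => by
          rw [IntermediateField.mem_fixedField_iff]
          intro g hg
          exact (h4 g).1 hg x hx) h5 hT

end Pool.Agent.Y18.LC
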