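import Mathlib
import Pool.Agent.Y18.LC.Step
import Pool.Agent.Y758.LC.NSB
import Pool.Agent.Y758.LC.DSC
import Pool.Agent.Y944.LC.UNR
import Pool.Agent.Y447.LC.RAM
import Pool.Agent.Y447.LC.FLD

/-!
# Project LC: subfields of a large field
-/

set_option autoImplicit false

namespace Pool.Agent.Y18.LC

open NumberField IsDedekindDomain Module Pool.Agent.H637R2.Leo

/-- unramifiedness descends -/
lemma unram_of_hom {E E' : Type} [Field E] [Field E'] [CharZero E] [CharZero E'] (f : E →+* E')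
    {q : ℕ} (hq : q ≠ 0) (h : (Ideal.span {(q : 𝓞 E')}).IsRadical) :
    (Ideal.span {(q : 𝓞 E)}).IsRadical := by
  intro x hx
  obtain ⟨n, hn⟩ := hx
  rw [Ideal.mem_span_singleton] at hn ⊢
  have h1 : (q : 𝓞 E') ∣ (RingOfIntegers.mapRingHom f x) ^ n := by
    have := map_dvd (RingOfIntegers.mapRingHom f) hn
    rwa [map_natCast, map_pow] at this
  have h2 : RingOfIntegers.mapRingHom f x ∈ Ideal.span {(q : 𝓞 E')} :=
    h ⟨n, Ideal.mem_span_singleton.2 h1⟩
  obtain ⟨y, hy⟩ := Ideal.mem_span_singleton.1 h2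
  have h3 : f (x : E) = (q : E') * (y : E') := by
    have h4 := congrArg (fun t : 𝓞 E' => (t : E')) hy
    simpa [RingOfIntegers.mapRingHom_apply] using h4
  have hqE : (q : E) ≠ 0 := Nat.cast_ne_zero.2 hq
  have hqE' : (q : E') ≠ 0 := Nat.cast_ne_zero.2 hq
  have h5 : f ((x : E) / (q : E)) = (y : E') := by
    rw [map_div₀, h3, map_natCast, mul_div_cancel_left₀ _ hqE']
  have h6 : IsIntegral ℤ ((x : E) / (q : E)) := by
    have h7 : IsIntegral ℤ (f ((x : E) / (q : E))) := by rw [h5]; exact y.2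
    letI := f.toAlgebra
    have h8 : IsIntegral ℤ (algebraMap E E' ((x : E) / (q : E))) := h7
    exact (isIntegral_algebraMap_iff (algebraMap E E').injective).1 h8
  refine ⟨⟨_, h6⟩, ?_⟩
  apply RingOfIntegers.coe_injective
  rw [map_mul, map_natCast, RingOfIntegers.map_mk, mul_div_cancel₀ _ hqE]

/-- ring isomorphisms are `ℚ`-linear -/
noncomputable def ratE {A B : Type} [Ring A] [Ring B] [Algebra ℚ A] [Algebra ℚ B] (e : A ≃+* B) :
    A ≃ₐ[ℚ] B :=
  AlgEquiv.ofRingEquiv (f := e) (fun r => RingHom.map_rat_algebraMap e.toRingHom r)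

variable {Ω : Type} [Field Ω] [CharZero Ω]

section
variable {F : Type} [Field F] [CharZero F]

/-- the inverse image of a subfield -/
noncomputable def cm (ι : F →+* Ω) (S : IntermediateField ℚ Ω) : IntermediateField ℚ F :=
  S.comap ι.toRatAlgHom

lemma mem_cm {ι : F →+* Ω} {S : IntermediateField ℚ Ω} {x : F} : x ∈ cm ι S ↔ ι x ∈ S := Iff.rfl

/-- the inverse image is isomorphic to the field -/
noncomputable def cmE (ι : F →+* Ω) (S : IntermediateField ℚ Ω) (h : ∀ x ∈ S, ∃ y : F, ι y = x) :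
    cm ι S ≃+* S :=
  RingEquiv.ofBijective
    ((ι.comp (cm ι S).val.toRingHom).codRestrict S.toSubfield (fun x => x.2) : cm ι S →+* S)
    ⟨RingHom.injective _, fun x => by
      obtain ⟨y, hy⟩ := h x x.2
      exact ⟨⟨y, by rw [mem_cm, hy]; exact x.2⟩, Subtype.ext hy⟩⟩

end

/-- elementary abelian extensions of `ℚ` -/
def EA (p : ℕ) (A : Type) [Field A] [Algebra ℚ A] : Prop :=
  IsGalois ℚ A ∧ (∀ g h : A ≃ₐ[ℚ] A, g * h = h * g) ∧ ∀ g : A ≃ₐ[ℚ] A, g ^ p = 1

lemma EA.congr {p : ℕ} {A B : Type} [Field A] [Field B] [Algebra ℚ A] [Algebra ℚ B] (e : A ≃+* B)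
    (h : EA p A) : EA p B := by
  obtain ⟨h1, h2, h3⟩ := h
  have e' : A ≃ₐ[ℚ] B := ratE e
  refine ⟨IsGalois.of_algEquiv e', fun g h => ?_, fun g => ?_⟩
  · apply (AlgEquiv.autCongr e').symm.injective
    rw [map_mul, map_mul, h2]
  · apply (AlgEquiv.autCongr e').symm.injective
    rw [map_pow, map_one, h3]

lemma finrank_congr {A B : Type} [Field A] [Field B] [Algebra ℚ A] [Algebra ℚ B] (e : A ≃+* B) :
    finrank ℚ A = finrank ℚ B := (ratE e).toLinearEquiv.finrank_eq

lemma adjoin_top {k F : Type} [Field k] [Field F] [CharZero F] [Algebra k F] (ι : F →+* Ω)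
    (K S : IntermediateField ℚ Ω) (hK : ∀ x ∈ K, ∃ y : F, ι y = x ∧ y ∈ IntermediateField.adjoin k (cm ι S : Set F))
    (hS : ∀ x ∈ S, ∃ y : F, ι y = x) (hF : ∀ y : F, ι y ∈ K ⊔ S) :
    IntermediateField.adjoin k (cm ι S : Set F) = ⊤ := by
  rw [eq_top_iff]
  intro y _
  set E := IntermediateField.adjoin k (cm ι S : Set F) with hE
  have h1 : K ⊔ S ≤ (E.toSubfield.map ι).toIntermediateField (fun q => by
      rw [eq_ratCast]
      exact SubfieldClass.ratCast_mem _ q) := by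
    apply sup_le
    · intro x hx
      obtain ⟨z, hz, hzE⟩ := hK x hx
      exact ⟨z, hzE, hz⟩
    · intro x hx
      obtain ⟨z, hz⟩ := hS x hx
      refine ⟨z, ?_, hz⟩
      apply IntermediateField.subset_adjoin
      show ι z ∈ S
      rw [hz]
      exact hx
  obtain ⟨z, hz, hzy⟩ := h1 (hF y)
  rw [← ι.injective hzy]
  exact hz

end Pool.Agent.Y18.LC
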