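import Mathlib
import Pool.Agent.Y18.LC.Omega

/-!
# Project LC: the step for subfields of a large field
-/

set_option autoImplicit false

namespace Pool.Agent.Y18.LC

open NumberField IsDedekindDomain Module Pool.Agent.H637R2.Leo

variable {Ω : Type} [Field Ω] [CharZero Ω]

/-- finite extensions of `ℚ` in `Ω` are number fields -/
lemma nf_of (S : IntermediateField ℚ Ω) (h : FiniteDimensional ℚ S) : NumberField S where
  to_charZero := inferInstance
  to_finiteDimensional := by
    have e : S ≃ₐ[ℚ] S := @ratE S S _ _ _ _ (RingEquiv.refl S)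
    exact @LinearEquiv.finiteDimensional ℚ S _ _ _ S _ _ (@ratE S S _ _ (_) (_) (RingEquiv.refl S)).toLinearEquiv h

/-- `L` is a number field which satisfies Leopoldt's conjecture at `p` -/
def LeoF (L : IntermediateField ℚ Ω) (p : ℕ) [Fact p.Prime] : Prop :=
  ∃ _ : NumberField L, Leopoldt L p

/-- there is only one prime above `q` -/
def NonS (k : Type) [Field k] (q : ℕ) : Prop :=
  ∀ P P' : Ideal (𝓞 k), P.IsPrime → P'.IsPrime → (q : 𝓞 k) ∈ P → (q : 𝓞 k) ∈ P' → P = P'

/-- the rational prime below a prime -/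
lemma exists_q {E : Type} [Field E] [NumberField E] (v : HeightOneSpectrum (𝓞 E)) :
    ∃ q : ℕ, q.Prime ∧ (q : 𝓞 E) ∈ v.asIdeal := by
  have h1 : Finite (𝓞 E ⧸ v.asIdeal) := Ideal.finiteQuotientOfFreeOfNeBot v.asIdeal v.ne_bot
  obtain ⟨q, hq⟩ := CharP.exists (𝓞 E ⧸ v.asIdeal)
  refine ⟨q, CharP.char_is_prime (𝓞 E ⧸ v.asIdeal) q, ?_⟩
  rw [← Ideal.Quotient.eq_zero_iff_mem, map_natCast]
  exact CharP.cast_eq_zero _ q

lemma finite_sub (F₀ : IntermediateField ℚ Ω) (h : FiniteDimensional ℚ F₀) :
    Finite {L : IntermediateField ℚ Ω // L ≤ F₀} := by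
  have hnf : NumberField F₀ := nf_of F₀ h
  have h1 : Finite (IntermediateField ℚ F₀) :=
    Field.finite_intermediateField_of_exists_primitive_element ℚ F₀
      (Field.exists_primitive_element ℚ F₀)
  refine Finite.of_injective (fun L : {L : IntermediateField ℚ Ω // L ≤ F₀} =>
    cm (algebraMap F₀ Ω) L.1) ?_
  intro L L' h
  have h' : cm (algebraMap F₀ Ω) L.1 = cm (algebraMap F₀ Ω) L'.1 := h
  apply Subtype.ext
  ext x
  constructor
  · intro hx
    have h2 : (⟨x, L.2 hx⟩ : F₀) ∈ cm (algebraMap F₀ Ω) L'.1 := by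
      rw [← h']
      exact hx
    exact h2
  · intro hx
    have h2 : (⟨x, L'.2 hx⟩ : F₀) ∈ cm (algebraMap F₀ Ω) L.1 := by
      rw [h']
      exact hx
    exact h2

/-- embedding into a subfield given by the image -/
lemma exists_hom {E : Type} [Field E] (j : E →+* Ω) (N : IntermediateField ℚ Ω)
    (h : ∀ x ∈ N, ∃ y : E, j y = x) : Nonempty (N →+* E) := by
  have h1 : ∀ x : N, ∃ y : E, j y = x := fun x => h x x.2
  choose f hf using h1
  exact ⟨{ toFun := f
           map_one' := j.injective (by rw [hf, map_one]; rfl)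
           map_mul' := fun a b => j.injective (by rw [hf, map_mul, hf, hf]; rfl)
           map_zero' := j.injective (by rw [hf, map_zero]; rfl)
           map_add' := fun a b => j.injective (by rw [hf, map_add, hf, hf]; rfl) }⟩

end Pool.Agent.Y18.LC
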