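import Mathlib
import Pool.Agent.Y18.LC.Omega2

/-!
# Project LC: the step for subfields of a large field, main theorem
-/

set_option autoImplicit false

namespace Pool.Agent.Y18.LC

open NumberField IsDedekindDomain Module Pool.Agent.H637R2.Leo

variable {Ω : Type} [Field Ω] [CharZero Ω]

lemma adjoin_top' {F : Type} [Field F] [CharZero F] (ι : F →+* Ω) (K S : IntermediateField ℚ Ω)
    (hι : ∀ x ∈ K ⊔ S, ∃ y : F, ι y = x) (hι' : ∀ y : F, ι y ∈ K ⊔ S) (k' : Type) [Field k']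
    [Algebra k' F] (hk' : ∀ x ∈ K, ∃ z : k', ι (algebraMap k' F z) = x) :
    IntermediateField.adjoin k' (cm ι S : Set F) = ⊤ := by
  refine adjoin_top ι K S (fun x hx => ?_) (fun x hx => hι x ((le_sup_right : S ≤ K ⊔ S) hx)) hι'
  obtain ⟨z, hz⟩ := hk' x hx
  exact ⟨algebraMap k' F z, hz, IntermediateField.algebraMap_mem _ z⟩

/-- transport of the elementary abelian property -/
lemma EA_cm {F : Type} [Field F] [CharZero F] (ι : F →+* Ω) (S : IntermediateField ℚ Ω)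
    (h : ∀ x ∈ S, ∃ y : F, ι y = x) {p : ℕ} (hS : EA p S) : EA p (cm ι S) :=
  hS.congr (cmE ι S h).symm

lemma unram_cm {F : Type} [Field F] [CharZero F] (ι : F →+* Ω) (S : IntermediateField ℚ Ω)
    (h : ∀ x ∈ S, ∃ y : F, ι y = x) {q : ℕ} (hq : q ≠ 0)
    (hS : (Ideal.span {(q : 𝓞 S)}).IsRadical) : (Ideal.span {(q : 𝓞 (cm ι S))}).IsRadical :=
  unram_of_hom (cmE ι S h).toRingHom hq hS

lemma finrank_cm {F : Type} [Field F] [CharZero F] (ι : F →+* Ω) (S : IntermediateField ℚ Ω)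
    (h : ∀ x ∈ S, ∃ y : F, ι y = x) : finrank ℚ (cm ι S) = finrank ℚ S :=
  finrank_congr (cmE ι S h)

/-- **the step**, for subfields of `Ω` -/
theorem stepO (hRAM : RAM) (hFLD : FLD) (hUNR : UNR) (hNSB : NSB) (hDSC : DSC)
    (k M : IntermediateField ℚ Ω) (p : ℕ) [hpf : Fact p.Prime]
    (hp2 : p ≠ 2) (hk : FiniteDimensional ℚ k) (hun : (Ideal.span {(p : 𝓞 k)}).IsRadical)
    (hkp : ¬ p ∣ finrank ℚ k) (r : ℕ) (hM : finrank ℚ M = p ^ r) (hMEA : EA p M)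
    (hMun : (Ideal.span {(p : 𝓞 M)}).IsRadical) (hL : LeoF (k ⊔ M) p) :
    ∃ W : ℕ, ∀ (m : ℕ) (F₀ : IntermediateField ℚ Ω), M ≤ F₀ → EA p F₀ →
      finrank ℚ F₀ = p ^ (r + m) → (Ideal.span {(p : 𝓞 F₀)}).IsRadical →
      (∀ q : ℕ, q.Prime → (Ideal.span {(q : 𝓞 F₀)}).IsRadical ∨ NonS k q) →
      p ^ (m - W) ≤ 1 + (p - 1) * Nat.card {L : IntermediateField ℚ Ω // M ≤ L ∧ L ≤ F₀ ∧
        finrank ℚ L = p ^ (r + 1) ∧ LeoF (k ⊔ L) p} := by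
  classical
  have hp : p.Prime := hpf.out
  obtain ⟨hnf1, hL1⟩ := hL
  have hnfk : NumberField k := nf_of k hk
  -- the field `k₁`
  set ι₁ : ↥(k ⊔ M) →+* Ω := algebraMap _ Ω with hι₁
  have hs₁ : ∀ x ∈ k ⊔ M, ∃ y : ↥(k ⊔ M), ι₁ y = x := fun x hx => ⟨⟨x, hx⟩, rfl⟩
  have hs₁' : ∀ y : ↥(k ⊔ M), ι₁ y ∈ k ⊔ M := fun y => y.2
  letI alg1 : Algebra k ↥(k ⊔ M) :=
    (IntermediateField.inclusion (le_sup_left : k ≤ k ⊔ M)).toRingHom.toAlgebra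
  have hsk : ∀ x ∈ k, ∃ z : k, ι₁ (algebraMap k ↥(k ⊔ M) z) = x := fun x hx => ⟨⟨x, hx⟩, rfl⟩
  have htop1 : IntermediateField.adjoin k (cm ι₁ M : Set ↥(k ⊔ M)) = ⊤ :=
    adjoin_top' ι₁ k M hs₁ hs₁' k hsk
  have hMs : ∀ x ∈ M, ∃ y : ↥(k ⊔ M), ι₁ y = x := fun x hx => hs₁ x ((le_sup_right : M ≤ k ⊔ M) hx)
  have hMEA1 := EA_cm ι₁ M hMs hMEA
  have hun1 : Unram ↥(k ⊔ M) p :=
    hUNR k ↥(k ⊔ M) (cm ι₁ M) hMEA1.1 htop1 p hp (unram_cm ι₁ M hMs hp.ne_zero hMun) hun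
  have hfr1 : finrank ℚ (cm ι₁ M) = p ^ r := by rw [finrank_cm ι₁ M hMs, hM]
  have hkp' : ¬ p ∣ finrank ℚ (k : Type) := by
    rw [← finrank_congr (RingEquiv.refl k)]
    exact hkp
  have hn1 : ∃ n : ℕ, finrank ℚ ↥(k ⊔ M) = n * p ^ r ∧ ¬ p ∣ n := by
    obtain ⟨h1, -, -, h2, -⟩ := hFLD p r k ↥(k ⊔ M) (cm ι₁ M) hMEA1.1 hMEA1.2.1 hMEA1.2.2 hfr1
      htop1 hkp'
    refine ⟨finrank ℚ k, ?_, hkp'⟩
    rw [← h2, IsGalois.card_aut_eq_finrank]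
    exact (Module.finrank_mul_finrank ℚ k ↥(k ⊔ M)).symm
  obtain ⟨W, hW⟩ := stepF ↥(k ⊔ M) p hp2 hun1 hL1
  refine ⟨W, ?_⟩
  intro m F₀ hMF hFEA hFfr hFun hFram
  have hfdF₀ : FiniteDimensional ℚ F₀ := by
    apply FiniteDimensional.of_finrank_pos
    rw [hFfr]
    exact pow_pos hp.pos _
  have hnfF : NumberField ↥(k ⊔ F₀) := nf_of _ inferInstance
  set ι : ↥(k ⊔ F₀) →+* Ω := algebraMap _ Ω with hι
  have hs : ∀ x ∈ k ⊔ F₀, ∃ y : ↥(k ⊔ F₀), ι y = x := fun x hx => ⟨⟨x, hx⟩, rfl⟩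
  have hs' : ∀ y : ↥(k ⊔ F₀), ι y ∈ k ⊔ F₀ := fun y => y.2
  letI alg2 : Algebra k ↥(k ⊔ F₀) :=
    (IntermediateField.inclusion (le_sup_left : k ≤ k ⊔ F₀)).toRingHom.toAlgebra
  letI alg3 : Algebra ↥(k ⊔ M) ↥(k ⊔ F₀) :=
    (IntermediateField.inclusion (sup_le_sup_left hMF k)).toRingHom.toAlgebra
  have hFs : ∀ x ∈ F₀, ∃ y : ↥(k ⊔ F₀), ι y = x :=
    fun x hx => hs x ((le_sup_right : F₀ ≤ k ⊔ F₀) hx)
  have hFEA1 := EA_cm ι F₀ hFs hFEA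
  have htop2 : IntermediateField.adjoin k (cm ι F₀ : Set ↥(k ⊔ F₀)) = ⊤ :=
    adjoin_top' ι k F₀ hs hs' k (fun x hx => ⟨⟨x, hx⟩, rfl⟩)
  have htop3 : IntermediateField.adjoin ↥(k ⊔ M) (cm ι F₀ : Set ↥(k ⊔ F₀)) = ⊤ :=
    adjoin_top' ι k F₀ hs hs' ↥(k ⊔ M)
      (fun x hx => ⟨⟨x, (le_sup_left : k ≤ k ⊔ M) hx⟩, rfl⟩)
  have hunF : Unram ↥(k ⊔ F₀) p :=
    hUNR k ↥(k ⊔ F₀) (cm ι F₀) hFEA1.1 htop2 p hp (unram_cm ι F₀ hFs hp.ne_zero hFun) hun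
  have hram : Ram (cm ι₁ M) ↥(k ⊔ M) ↥(k ⊔ F₀) := by
    intro v
    obtain ⟨q, hq, hqv⟩ := exists_q v
    rcases hFram q hq with h1 | h1
    · left
      exact hRAM ↥(k ⊔ M) ↥(k ⊔ F₀) (cm ι F₀) hFEA1.1 htop3 q hq
        (unram_cm ι F₀ hFs hq.ne_zero h1) v hqv
    · right
      intro v' hv'
      refine hNSB p r k ↥(k ⊔ M) (cm ι₁ M) hMEA1.1 hfr1 htop1 hkp' q hq ?_ v v' hqv hv'
      intro u u' hu hu'
      ext1
      exact h1 u.asIdeal u'.asIdeal u.isPrime u'.isPrime hu hu'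
  obtain ⟨𝓖, h𝓖, h𝓖'⟩ := hW m r ↥(k ⊔ F₀) (cm ι M) (cm ι F₀) (cm ι₁ M)
    (fun x => by
      rw [mem_cm]
      exact hMF x.2)
    (fun x hx => hMF hx) hFEA1.1 hFEA1.2.1 hFEA1.2.2
    (by rw [finrank_cm ι M (fun x hx => hFs x (hMF hx)), hM])
    (by rw [finrank_cm ι F₀ hFs, hFfr]) htop3
    (fun x hx => ⟨⟨ι x, (le_sup_right : M ≤ k ⊔ M) hx⟩, Subtype.ext rfl⟩) hn1 hunF hram
  refine h𝓖.trans ?_
  have hfin : Finite {L : IntermediateField ℚ Ω // M ≤ L ∧ L ≤ F₀ ∧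
      finrank ℚ L = p ^ (r + 1) ∧ LeoF (k ⊔ L) p} := by
    have h1 := finite_sub F₀ hfdF₀
    refine Finite.of_injective (fun L => (⟨L.1, L.2.2.1⟩ : {L : IntermediateField ℚ Ω // L ≤ F₀})) ?_
    intro L L' h
    have h2 := congrArg (fun t : {L : IntermediateField ℚ Ω // L ≤ F₀} => t.1) h
    exact Subtype.ext h2
  have hmain : ∀ L₀ ∈ 𝓖, M ≤ L₀.map ι.toRatAlgHom ∧ L₀.map ι.toRatAlgHom ≤ F₀ ∧
      finrank ℚ (L₀.map ι.toRatAlgHom) = p ^ (r + 1) ∧ LeoF (k ⊔ L₀.map ι.toRatAlgHom) p := by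
    intro L₀ hL₀
    obtain ⟨h1, h2, h3, E, hE, hEL⟩ := h𝓖' L₀ hL₀
    have h4 : finrank ℚ (L₀.map ι.toRatAlgHom) = p ^ (r + 1) := by
      rw [← h3]
      exact (finrank_congr (L₀.equivMap ι.toRatAlgHom).toRingEquiv).symm
    refine ⟨?_, ?_, h4, ?_⟩
    · intro x hx
      obtain ⟨y, hy⟩ := hFs x (hMF hx)
      refine ⟨y, h1 ?_, hy⟩
      show ι y ∈ M
      rw [hy]
      exact hx
    · rintro _ ⟨y, hy, rfl⟩
      exact h2 hy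
    · have hfd : FiniteDimensional ℚ (L₀.map ι.toRatAlgHom) := by
        apply FiniteDimensional.of_finrank_pos
        rw [h4]
        exact pow_pos hp.pos _
      have hnf : NumberField ↥(k ⊔ L₀.map ι.toRatAlgHom) := nf_of _ inferInstance
      refine ⟨hnf, ?_⟩
      have hle : k ⊔ L₀.map ι.toRatAlgHom ≤ (E.toSubfield.map ι).toIntermediateField
          (fun q => by
            rw [eq_ratCast]
            exact SubfieldClass.ratCast_mem _ q) := by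
        apply sup_le
        · intro x hx
          exact ⟨algebraMap ↥(k ⊔ M) ↥(k ⊔ F₀) ⟨x, (le_sup_left : k ≤ k ⊔ M) hx⟩,
            E.algebraMap_mem _, rfl⟩
        · rintro _ ⟨y, hy, rfl⟩
          exact ⟨y, hE y hy, rfl⟩
      obtain ⟨f⟩ := exists_hom (ι.comp (algebraMap E ↥(k ⊔ F₀))) (k ⊔ L₀.map ι.toRatAlgHom)
        (fun x hx => by
          obtain ⟨y, hy, hyx⟩ := hle hx
          exact ⟨⟨y, hy⟩, hyx⟩)
      exact hDSC ↥(k ⊔ L₀.map ι.toRatAlgHom) E f p hEL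
  have hcard : 𝓖.card ≤ Nat.card {L : IntermediateField ℚ Ω // M ≤ L ∧ L ≤ F₀ ∧
      finrank ℚ L = p ^ (r + 1) ∧ LeoF (k ⊔ L) p} := by
    rw [← Fintype.card_coe, ← Nat.card_eq_fintype_card]
    refine Nat.card_le_card_of_injective (fun L₀ : 𝓖 => ⟨L₀.1.map ι.toRatAlgHom, hmain L₀.1 L₀.2⟩)
      ?_
    intro L L' h
    have h2 := congrArg (fun t : {L : IntermediateField ℚ Ω // M ≤ L ∧ L ≤ F₀ ∧
      finrank ℚ L = p ^ (r + 1) ∧ LeoF (k ⊔ L) p} => t.1) h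
    exact Subtype.ext (IntermediateField.map_injective ι.toRatAlgHom h2)
  exact Nat.add_le_add_left (Nat.mul_le_mul_left _ hcard) 1

end Pool.Agent.Y18.LC
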