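import Mathlib
import Pool.Agent.Y18.LC.Omega3

/-!
# Project LC: infinite towers
-/

set_option autoImplicit false

namespace Pool.Agent.Y18.LC

open NumberField IsDedekindDomain Module Pool.Agent.H637R2.Leo

variable {Ω : Type} [Field Ω] [CharZero Ω]

/-- the elementary abelian property descends -/
lemma EA_sub {p : ℕ} {A L : IntermediateField ℚ Ω} (h : L ≤ A) (hA : EA p A) : EA p L := by
  obtain ⟨h1, h2, h3⟩ := hA
  have hab : IsAbelianGalois ℚ A :=
    { toIsGalois := h1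
      toIsMulCommutative := ⟨⟨h2⟩⟩ }
  have hab2 : IsAbelianGalois ℚ L :=
    @IsAbelianGalois.of_algHom ℚ L A _ _ _ _ _ (IntermediateField.inclusion h) hab
  refine ⟨hab2.toIsGalois, fun g h => mul_comm' g h, fun g => ?_⟩
  letI : Algebra L A := (IntermediateField.inclusion h).toRingHom.toAlgebra
  haveI : IsScalarTower ℚ L A := IsScalarTower.of_algebraMap_eq' rfl
  haveI : Normal ℚ A := h1.to_normal
  haveI : Normal ℚ L := hab2.toIsGalois.to_normal
  obtain ⟨g', rfl⟩ := AlgEquiv.restrictNormalHom_surjective (F := ℚ) (K₁ := L) (E := A) g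
  rw [← map_pow, h3, map_one]

/-- finite elementary abelian extensions -/
lemma EA_finrank {p : ℕ} [hpf : Fact p.Prime] {L : IntermediateField ℚ Ω} (hL : EA p L)
    (hfin : FiniteDimensional ℚ L) : ∃ s : ℕ, finrank ℚ L = p ^ s := by
  obtain ⟨h1, h2, h3⟩ := hL
  have hPG : IsPGroup p (L ≃ₐ[ℚ] L) := fun g => ⟨1, by rw [pow_one]; exact h3 g⟩
  obtain ⟨s, hs⟩ := IsPGroup.iff_card.1 hPG
  exact ⟨s, by rw [← IsGalois.card_aut_eq_finrank, hs]⟩

/-- large finite subextensions -/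
lemma exists_large {A M : IntermediateField ℚ Ω} (hMA : M ≤ A) (hM : FiniteDimensional ℚ M)
    (halg : Algebra.IsAlgebraic ℚ A) (hA : ¬ FiniteDimensional ℚ A) (N : ℕ) :
    ∃ F₀ : IntermediateField ℚ Ω, FiniteDimensional ℚ F₀ ∧ M ≤ F₀ ∧ F₀ ≤ A ∧
      N ≤ finrank ℚ F₀ := by
  induction N with
  | zero => exact ⟨M, hM, le_rfl, hMA, Nat.zero_le _⟩
  | succ N ih =>
    obtain ⟨F₀, h1, h2, h3, h4⟩ := ih
    have h5 : ¬ A ≤ F₀ := by
      intro h
      have h6 := le_antisymm h h3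
      rw [h6] at hA
      exact hA h1
    obtain ⟨x, hx, hxF⟩ := Set.not_subset.1 h5
    have hxi : IsIntegral ℚ x := by
      have h6 : IsIntegral ℚ (⟨x, hx⟩ : A) := (halg.isAlgebraic _).isIntegral
      exact h6.map A.val
    have h7 : FiniteDimensional ℚ ↥(IntermediateField.adjoin ℚ {x}) :=
      IntermediateField.adjoin.finiteDimensional hxi
    refine ⟨F₀ ⊔ IntermediateField.adjoin ℚ {x}, inferInstance, h2.trans le_sup_left,
      sup_le h3 ?_, ?_⟩
    · rw [IntermediateField.adjoin_simple_le_iff]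
      exact hx
    · by_contra hcon
      have h8 : F₀ = F₀ ⊔ IntermediateField.adjoin ℚ {x} := by
        apply IntermediateField.eq_of_le_of_finrank_le le_sup_left
        omega
      apply hxF
      have h9 : IntermediateField.adjoin ℚ {x} ≤ F₀ := by
        conv_rhs => rw [h8]
        exact le_sup_right
      rw [IntermediateField.adjoin_simple_le_iff] at h9
      exact h9

/-- Leopoldt's conjecture descends to subfields -/
lemma LeoF_mono (hDSC : DSC) {L L' : IntermediateField ℚ Ω} (h : L ≤ L')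
    (hL : FiniteDimensional ℚ L) {p : ℕ} [Fact p.Prime] (hL' : LeoF L' p) : LeoF L p := by
  obtain ⟨hnf', h1⟩ := hL'
  have hnf := nf_of L hL
  exact ⟨hnf, hDSC L L' (IntermediateField.inclusion h).toRingHom p h1⟩

/-- finite subfields of directed unions -/
lemma le_of_le_iSup (t : ℕ → IntermediateField ℚ Ω) (ht : Monotone t)
    (L : IntermediateField ℚ Ω) (hL : FiniteDimensional ℚ L) (h : L ≤ ⨆ i, t i) :
    ∃ i, L ≤ t i := by
  have hdir : Directed (· ≤ ·) t := ht.directed_le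
  have hnf : NumberField L := nf_of L hL
  obtain ⟨α, hα⟩ := Field.exists_primitive_element ℚ L
  have h1 : (α : Ω) ∈ ((⨆ i, t i : IntermediateField ℚ Ω) : Set Ω) := h α.2
  rw [IntermediateField.coe_iSup_of_directed hdir, Set.mem_iUnion] at h1
  obtain ⟨i, hi⟩ := h1
  refine ⟨i, fun x hx => ?_⟩
  have h2 : IntermediateField.adjoin ℚ {α} ≤ cm (algebraMap L Ω) (t i) := by
    rw [IntermediateField.adjoin_simple_le_iff]
    exact hi
  have h3 : (⟨x, hx⟩ : L) ∈ IntermediateField.adjoin ℚ {α} := by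
    rw [hα]
    trivial
  exact h2 h3

/-- **infinite towers** -/
theorem tower (hRAM : RAM) (hFLD : FLD) (hUNR : UNR) (hNSB : NSB) (hDSC : DSC)
    (k : IntermediateField ℚ Ω) (p : ℕ) [hpf : Fact p.Prime]
    (hp2 : p ≠ 2) (hk : FiniteDimensional ℚ k) (hun : (Ideal.span {(p : 𝓞 k)}).IsRadical)
    (hkp : ¬ p ∣ finrank ℚ k) (hL : LeoF k p) (A : IntermediateField ℚ Ω) (hA : EA p A)
    (hAinf : ¬ FiniteDimensional ℚ A) (hAun : (Ideal.span {(p : 𝓞 A)}).IsRadical)
    (hAram : ∀ q : ℕ, q.Prime → (Ideal.span {(q : 𝓞 A)}).IsRadical ∨ NonS k q) :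
    ∃ M : IntermediateField ℚ Ω, M ≤ A ∧ ¬ FiniteDimensional ℚ M ∧
      ∀ L : IntermediateField ℚ Ω, L ≤ k ⊔ M → FiniteDimensional ℚ L → LeoF L p := by
  classical
  have hp : p.Prime := hpf.out
  have hunL : ∀ L : IntermediateField ℚ Ω, L ≤ A → ∀ q : ℕ, q ≠ 0 →
      (Ideal.span {(q : 𝓞 A)}).IsRadical → (Ideal.span {(q : 𝓞 L)}).IsRadical :=
    fun L hLA q hq h => unram_of_hom (IntermediateField.inclusion hLA).toRingHom hq h
  have halg : Algebra.IsAlgebraic ℚ A := by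
    haveI : Normal ℚ A := hA.1.to_normal
    infer_instance
  -- the step
  have hstep : ∀ (r : ℕ) (M : IntermediateField ℚ Ω), M ≤ A → finrank ℚ M = p ^ r →
      LeoF (k ⊔ M) p → ∃ M' : IntermediateField ℚ Ω, M ≤ M' ∧ M' ≤ A ∧
        finrank ℚ M' = p ^ (r + 1) ∧ LeoF (k ⊔ M') p := by
    intro r M hMA hM hLM
    have hMfd : FiniteDimensional ℚ M := by
      apply FiniteDimensional.of_finrank_pos
      rw [hM]
      exact pow_pos hp.pos _
    obtain ⟨W, hW⟩ := stepO hRAM hFLD hUNR hNSB hDSC k M p hp2 hk hun hkp r hM (EA_sub hMA hA)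
      (hunL M hMA p hp.ne_zero hAun) hLM
    obtain ⟨F₀, hfd, hMF, hFA, hbig⟩ := exists_large hMA hMfd halg hAinf (p ^ (r + (W + 1)))
    obtain ⟨s, hs⟩ := EA_finrank (EA_sub hFA hA) hfd
    rw [hs] at hbig
    have hrs : r + (W + 1) ≤ s := (Nat.pow_le_pow_iff_right hp.one_lt).1 hbig
    obtain ⟨m, rfl⟩ : ∃ m, s = r + m := ⟨s - r, by omega⟩
    have h1 := hW m F₀ hMF (EA_sub hFA hA) hs (hunL F₀ hFA p hp.ne_zero hAun) (fun q hq => by
      rcases hAram q hq with h | h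
      · exact Or.inl (hunL F₀ hFA q hq.ne_zero h)
      · exact Or.inr h)
    have h2 : 1 < p ^ (m - W) := Nat.one_lt_pow (by omega) hp.one_lt
    have h3 : 0 < Nat.card {L : IntermediateField ℚ Ω // M ≤ L ∧ L ≤ F₀ ∧
        finrank ℚ L = p ^ (r + 1) ∧ LeoF (k ⊔ L) p} := by
      by_contra h
      have h4 : Nat.card {L : IntermediateField ℚ Ω // M ≤ L ∧ L ≤ F₀ ∧
        finrank ℚ L = p ^ (r + 1) ∧ LeoF (k ⊔ L) p} = 0 := by omega
      rw [h4] at h1
      omega
    obtain ⟨⟨L, hL1, hL2, hL3, hL4⟩⟩ := (Nat.card_pos_iff.1 h3).1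
    exact ⟨L, hL1, hL2.trans hFA, hL3, hL4⟩
  choose f hf using hstep
  -- the sequence
  let S : ℕ → Type := fun r => {M : IntermediateField ℚ Ω // M ≤ A ∧ finrank ℚ M = p ^ r ∧
    LeoF (k ⊔ M) p}
  let s0 : S 0 := ⟨⊥, bot_le, by rw [IntermediateField.finrank_bot, pow_zero], by
    rw [sup_bot_eq]; exact hL⟩
  let seq : ∀ r, S r := fun r => Nat.rec s0 (fun r M =>
    ⟨f r M.1 M.2.1 M.2.2.1 M.2.2.2, (hf r M.1 M.2.1 M.2.2.1 M.2.2.2).2⟩) r
  let t : ℕ → IntermediateField ℚ Ω := fun r => (seq r).1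
  have ht : Monotone t := by
    apply monotone_nat_of_le_succ
    intro r
    exact (hf r (seq r).1 (seq r).2.1 (seq r).2.2.1 (seq r).2.2.2).1
  refine ⟨⨆ i, t i, iSup_le fun i => (seq i).2.1, ?_, ?_⟩
  · intro hfd
    obtain ⟨i, hi⟩ := le_of_le_iSup t ht _ hfd le_rfl
    have h1 : t (i + 1) = t i := le_antisymm ((le_iSup t (i + 1)).trans hi) (ht (Nat.le_succ i))
    have h2 : finrank ℚ (t (i + 1)) = p ^ (i + 1) := (seq (i + 1)).2.2.1
    have h3 : finrank ℚ (t i) = p ^ i := (seq i).2.2.1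
    rw [h1, h3] at h2
    have h4 := Nat.pow_right_injective hp.two_le h2
    omega
  · intro L hLM hLfd
    have h1 : k ⊔ ⨆ i, t i = ⨆ i, (k ⊔ t i) := by rw [sup_iSup]
    rw [h1] at hLM
    obtain ⟨i, hi⟩ := le_of_le_iSup (fun i => k ⊔ t i)
      (fun a b hab => sup_le_sup_left (ht hab) k) L hLfd hLM
    exact LeoF_mono hDSC hi hLfd (seq i).2.2.2

end Pool.Agent.Y18.LC
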