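import Mathlib
import Pool.Agent.Y18.LC.Tower
import Pool.Agent.Y18.LC.Stm3

/-!
# Project LC: existence of towers, unconditional examples
-/

set_option autoImplicit false

namespace Pool.Agent.Y18.LC

open NumberField IsDedekindDomain Module Pool.Agent.H637R2.Leo

variable {Ω : Type} [Field Ω] [CharZero Ω]

/-- an automorphism which permutes the embeddings in one cycle and fixes the `p`-th roots of unity -/
lemma cycle_fix (hGLF : GLF) (k : Type) [Field k] [NumberField k] {p : ℕ} (hp : p.Prime)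
    (hun : Unram k p) (hcyc : ∃ g : AlgebraicClosure ℚ ≃+* AlgebraicClosure ℚ,
      ∀ τ τ' : k →+* AlgebraicClosure ℚ, ∃ j : ℕ, ∀ x : k, (⇑g)^[j] (τ x) = τ' x) :
    ∃ g : AlgebraicClosure ℚ ≃+* AlgebraicClosure ℚ,
      (∀ τ τ' : k →+* AlgebraicClosure ℚ, ∃ j : ℕ, ∀ x : k, (⇑g)^[j] (τ x) = τ' x) ∧
      (∀ ζ : AlgebraicClosure ℚ, ζ ^ p = 1 → g ζ = ζ) := by
  obtain ⟨g, hg⟩ := hcyc
  obtain ⟨g', hg', hζ⟩ := hGLF k p hp hun g
  refine ⟨g', fun τ τ' => ?_, hζ⟩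
  have hit : ∀ (j : ℕ), ∃ τj : k →+* AlgebraicClosure ℚ, ∀ x : k,
      (⇑g)^[j] (τ x) = τj x ∧ (⇑g')^[j] (τ x) = τj x := by
    intro j
    induction j with
    | zero => exact ⟨τ, fun x => ⟨rfl, rfl⟩⟩
    | succ j ih =>
      obtain ⟨τj, hτj⟩ := ih
      refine ⟨(g : AlgebraicClosure ℚ →+* AlgebraicClosure ℚ).comp τj, fun x => ⟨?_, ?_⟩⟩
      · rw [Function.iterate_succ_apply', (hτj x).1]
        rfl
      · rw [Function.iterate_succ_apply', (hτj x).2, hg']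
        rfl
  obtain ⟨j, hj⟩ := hg τ τ'
  obtain ⟨τj, hτj⟩ := hit j
  exact ⟨j, fun x => by rw [(hτj x).2, ← (hτj x).1, hj x]⟩

/-- **existence of infinite towers** -/
theorem part3 (hGLF : GLF) (hCHB : CHB) (hCYA : CYA) (hRAM : RAM) (hFLD : FLD) (hUNR : UNR)
    (hNSB : NSB) (hDSC : DSC) [IsAlgClosed Ω]
    (k : IntermediateField ℚ Ω) (p : ℕ) [hpf : Fact p.Prime]
    (hp2 : p ≠ 2) (hk : FiniteDimensional ℚ k) (hun : (Ideal.span {(p : 𝓞 k)}).IsRadical)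
    (hkp : ¬ p ∣ finrank ℚ k) (hL : LeoF k p)
    (hcyc : ∃ g : AlgebraicClosure ℚ ≃+* AlgebraicClosure ℚ,
      ∀ τ τ' : k →+* AlgebraicClosure ℚ, ∃ j : ℕ, ∀ x : k, (⇑g)^[j] (τ x) = τ' x) :
    {q : ℕ | q.Prime ∧ q % p = 1 ∧ NonS k q}.Infinite ∧
    ∀ Q ⊆ {q : ℕ | q.Prime ∧ q % p = 1 ∧ NonS k q}, Q.Infinite →
    ∃ M : IntermediateField ℚ Ω, EA p M ∧ ¬ FiniteDimensional ℚ M ∧
      (∀ l : ℕ, l.Prime → l ∉ Q → (Ideal.span {(l : 𝓞 M)}).IsRadical) ∧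
      ∀ L : IntermediateField ℚ Ω, L ≤ k ⊔ M → FiniteDimensional ℚ L → LeoF L p := by
  have hp : p.Prime := hpf.out
  have hnf : NumberField k := nf_of k hk
  constructor
  · obtain ⟨g, hg, hgζ⟩ := cycle_fix hGLF k hp hun hcyc
    exact hCHB k p hp g hg hgζ
  · intro Q hQ hQinf
    obtain ⟨A, hA, hAinf, hAram⟩ := hCYA Ω p Q hQinf (fun q hq => ⟨(hQ hq).1, (hQ hq).2.1⟩)
    have hpQ : p ∉ Q := by
      intro h
      have h1 := (hQ h).2.1
      rw [Nat.mod_self] at h1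
      omega
    obtain ⟨M, hMA, hMinf, hM⟩ := tower hRAM hFLD hUNR hNSB hDSC k p hp2 hk hun hkp hL A hA hAinf
      (hAram p hp hpQ) (fun q hq => by
        by_cases h : q ∈ Q
        · exact Or.inr (hQ h).2.2
        · exact Or.inl (hAram q hq h))
    exact ⟨M, EA_sub hMA hA, hMinf, fun l hl hlQ =>
      unram_of_hom (IntermediateField.inclusion hMA).toRingHom hl.ne_zero (hAram l hl hlQ), hM⟩

/-- **unconditional examples** -/
theorem part4 (hGLF : GLF) (hCHB : CHB) (hCYA : CYA) (hPRD : PRD) (hFAM : FAM)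
    (hRAM : RAM) (hFLD : FLD) (hUNR : UNR) (hNSB : NSB) (hDSC : DSC) [IsAlgClosed Ω]
    (n p : ℕ) [hpf : Fact p.Prime] (hn : n.Prime) (hn3 : 3 ≤ n) (hp2 : p ≠ 2) (hpn : p ≠ n)
    (ι : Type) [Fintype ι] (E : ι → Type) [∀ i, Field (E i)] [∀ i, NumberField (E i)] :
    ∃ k M : IntermediateField ℚ Ω, finrank ℚ k = n ∧ IsTotallyReal k ∧ ¬ IsGalois ℚ k ∧
      (∀ i, IsEmpty (k ≃+* E i)) ∧ EA p M ∧ ¬ FiniteDimensional ℚ M ∧
      ∀ L : IntermediateField ℚ Ω, L ≤ k ⊔ M → FiniteDimensional ℚ L → LeoF L p := by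
  have hp : p.Prime := hpf.out
  obtain ⟨K, _, _, h1, h2, h3, h4, h5, h6⟩ := hFAM n p hn hn3 hpn ι E
  have j : K →ₐ[ℚ] Ω := IsAlgClosed.lift
  let k : IntermediateField ℚ Ω := j.fieldRange
  have e : K ≃ₐ[ℚ] k := AlgEquiv.ofInjectiveField j
  have hfr : finrank ℚ k = n := by rw [← h1]; exact (finrank_congr e.toRingEquiv).symm
  have hfd : FiniteDimensional ℚ k := by
    apply FiniteDimensional.of_finrank_pos
    rw [hfr]
    omega
  have hnf : NumberField k := nf_of k hfd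
  have hun : (Ideal.span {(p : 𝓞 k)}).IsRadical := unram_of_hom e.symm.toRingHom hp.ne_zero h5
  have hpn' : ¬ p ∣ finrank ℚ k := by
    rw [hfr, Nat.prime_dvd_prime_iff_eq hp hn]
    exact hpn
  have hprime : (finrank ℚ (k : Type)).Prime := by
    rw [← finrank_congr (RingEquiv.refl k), hfr]
    exact hn
  have hL : LeoF k p := ⟨hnf, hDSC k K e.symm.toRingHom p h6⟩
  obtain ⟨hQ, h7⟩ := part3 hGLF hCHB hCYA hRAM hFLD hUNR hNSB hDSC k p hp2 hfd hun hpn' hL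
    (hPRD k hprime)
  obtain ⟨M, hM1, hM2, -, hM3⟩ := h7 _ le_rfl hQ
  refine ⟨k, M, hfr, IsTotallyReal.ofRingEquiv e.toRingEquiv, fun hG => h3 ?_, fun i => ?_, hM1,
    hM2, hM3⟩
  · exact IsGalois.of_algEquiv e.symm
  · refine ⟨fun f => (h4 i).false (e.toRingEquiv.trans f)⟩

end Pool.Agent.Y18.LC
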