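import Mathlib
import Pool.Agent.H637R2.Leo.Crit
import Pool.Agent.W289.SL.Defs

/-!
# Project LC (helper18), fourth batch: the Sigma-Leopoldt conjecture
-/

set_option autoImplicit false

namespace Pool.Agent.Y18.LC

open NumberField Module Pool.Agent.H637R2.Leo Pool.Agent.W289.SL

/-- LC-LCP: Leopoldt's conjecture implies that `ℂ_p ⊗ 𝓞_E^×` injects into the product of the
logarithms -/
def LCP : Prop := ∀ (p : ℕ) [Fact p.Prime] (E : Type) [Field E] [NumberField E], Leopoldt E p →
  ∀ (L : ℂ_[p] → ℂ_[p]) (hL : IsIwasawaLog p L) (x : UM p E),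
    (∀ σ : E →+* ℂ_[p], logLin hL σ x = 0) → x = 0

/-- LC-SIG: from a totally real field to the characters of a CM field -/
def SIG : Prop := ∀ (p : ℕ) [Fact p.Prime] (F K E H : Type) [Field F] [NumberField F]
  [Field K] [NumberField K] [Field E] [NumberField E] [Field H] [NumberField H]
  [Algebra F K] [Algebra K H] [Algebra F E] [Algebra E H],
  IsTotallyReal E → IsTotallyComplex K → finrank F K = 2 → finrank E H = 2 →
  (∀ x : F, algebraMap K H (algebraMap F K x) = algebraMap E H (algebraMap F E x)) →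
  (∀ (L : ℂ_[p] → ℂ_[p]) (hL : IsIwasawaLog p L) (x : UM p E),
    (∀ σ : E →+* ℂ_[p], logLin hL σ x = 0) → x = 0) →
  ∀ S : Set (K →+* ℂ_[p]), IsCMType p F K S →
    ∀ χ : (H ≃ₐ[K] H) →* ℂ_[p]ˣ, SigmaLeopoldt p K H S χ

end Pool.Agent.Y18.LC
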