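import Mathlib
import Pool.Agent.Y18.LC.Final
import Pool.Agent.Y18.LC.Stm4

/-!
# Project LC: the Sigma-Leopoldt conjecture for the characters of `K L / K`
-/

set_option autoImplicit false

namespace Pool.Agent.Y18.LC

open NumberField Module Pool.Agent.H637R2.Leo Pool.Agent.W289.SL

variable {Ω : Type} [Field Ω] [CharZero Ω]

/-- Galois fields of odd degree are totally real -/
lemma treal_odd (L : Type) [Field L] [NumberField L] (hG : IsGalois ℚ L)
    (h : Odd (finrank ℚ L)) : IsTotallyReal L where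
  isReal w := by
    have h1 := IsUnramifiedAtInfinitePlaces_of_odd_finrank (k := ℚ) (K := L) h
    rcases InfinitePlace.isUnramified_iff.1 (h1.isUnramified w) with h2 | h2
    · exact h2
    · exact absurd (IsTotallyReal.isReal (w.comap (algebraMap ℚ L)))
        (InfinitePlace.not_isReal_iff_isComplex.2 h2)

/-- composites of totally real fields -/
lemma treal_sup (F L : IntermediateField ℚ Ω) [FiniteDimensional ℚ F] [FiniteDimensional ℚ L]
    (hF : IsTotallyReal F) (hL : IsTotallyReal L) : IsTotallyReal ↥(F ⊔ L) := by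
  have hnf : NumberField ↥(F ⊔ L) := nf_of _ inferInstance
  set ι : ↥(F ⊔ L) →+* Ω := algebraMap _ Ω with hι
  have hs : ∀ x ∈ F ⊔ L, ∃ y : ↥(F ⊔ L), ι y = x := fun x hx => ⟨⟨x, hx⟩, rfl⟩
  have hFs : ∀ x ∈ F, ∃ y : ↥(F ⊔ L), ι y = x := fun x hx => hs x ((le_sup_left : F ≤ F ⊔ L) hx)
  have hLs : ∀ x ∈ L, ∃ y : ↥(F ⊔ L), ι y = x := fun x hx => hs x ((le_sup_right : L ≤ F ⊔ L) hx)
  have h1 : IsTotallyReal (cm ι F).toSubfield := IsTotallyReal.ofRingEquiv (cmE ι F hFs).symm
  have h2 : IsTotallyReal (cm ι L).toSubfield := IsTotallyReal.ofRingEquiv (cmE ι L hLs).symm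
  have h3 : IsTotallyReal ↥((cm ι F).toSubfield ⊔ (cm ι L).toSubfield) := isTotallyReal_sup
  have h4 : (cm ι F).toSubfield ⊔ (cm ι L).toSubfield = ⊤ := by
    rw [eq_top_iff]
    intro y _
    have h5 : F ⊔ L ≤ (((cm ι F).toSubfield ⊔ (cm ι L).toSubfield).map ι).toIntermediateField
        (fun q => by
          rw [eq_ratCast]
          exact SubfieldClass.ratCast_mem _ q) := by
      apply sup_le
      · intro x hx
        obtain ⟨z, hz⟩ := hFs x hx
        refine ⟨z, (le_sup_left : (cm ι F).toSubfield ≤ _) ?_, hz⟩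
        show ι z ∈ F
        rw [hz]
        exact hx
      · intro x hx
        obtain ⟨z, hz⟩ := hLs x hx
        refine ⟨z, (le_sup_right : (cm ι L).toSubfield ≤ _) ?_, hz⟩
        show ι z ∈ L
        rw [hz]
        exact hx
    obtain ⟨z, hz, hzy⟩ := h5 y.2
    have : z = y := ι.injective hzy
    rw [← this]
    exact hz
  rw [h4] at h3
  exact h3.ofRingEquiv Subfield.topEquiv

/-- the Sigma-Leopoldt statement for all CM types and all characters of `Gal(K L / K)` -/
def SigF (F K L : IntermediateField ℚ Ω) (hFK : F ≤ K) (p : ℕ) [Fact p.Prime] : Prop :=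
  ∃ _ : NumberField ↥(K ⊔ L),
    letI : Algebra F K := (IntermediateField.inclusion hFK).toRingHom.toAlgebra
    letI : Algebra K ↥(K ⊔ L) :=
      (IntermediateField.inclusion (le_sup_left : K ≤ K ⊔ L)).toRingHom.toAlgebra
    ∀ S : Set (K →+* ℂ_[p]), IsCMType p F K S →
      ∀ χ : (↥(K ⊔ L) ≃ₐ[K] ↥(K ⊔ L)) →* ℂ_[p]ˣ, SigmaLeopoldt p K ↥(K ⊔ L) S χ

/-- embedding into a subfield given by the image, with compatibility -/
lemma exists_hom' {E : Type} [Field E] (j : E →+* Ω) (N : IntermediateField ℚ Ω)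
    (h : ∀ x ∈ N, ∃ y : E, j y = x) : ∃ f : N →+* E, ∀ x : N, j (f x) = x := by
  have h1 : ∀ x : N, ∃ y : E, j y = x := fun x => h x x.2
  choose f hf using h1
  exact ⟨{ toFun := f
           map_one' := j.injective (by rw [hf, map_one]; rfl)
           map_mul' := fun a b => j.injective (by rw [hf, map_mul, hf, hf]; rfl)
           map_zero' := j.injective (by rw [hf, map_zero]; rfl)
           map_add' := fun a b => j.injective (by rw [hf, map_add, hf, hf]; rfl) }, hf⟩

/-- the degree of `K L / F L` -/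
lemma finrank_two (F K L : IntermediateField ℚ Ω) (hFK : F ≤ K) [FiniteDimensional ℚ F]
    [FiniteDimensional ℚ K] [FiniteDimensional ℚ L] (h2 : finrank ℚ K = 2 * finrank ℚ F)
    (hne : ¬ K ≤ F ⊔ L) (E H : Type) [Field E] [NumberField E] [Field H] [NumberField H]
    [Algebra E H] (ιH : H →+* Ω)
    (hE : ∀ x ∈ F ⊔ L, ∃ y : E, ιH (algebraMap E H y) = x) (hE' : ∀ y : E, ιH (algebraMap E H y) ∈ F ⊔ L)
    (hH : ∀ x ∈ K ⊔ L, ∃ y : H, ιH y = x) (hH' : ∀ y : H, ιH y ∈ K ⊔ L) : finrank E H = 2 := by
  letI alg : Algebra F K := (IntermediateField.inclusion hFK).toRingHom.toAlgebra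
  haveI tow : IsScalarTower ℚ F K := IsScalarTower.of_algebraMap_eq' rfl
  have hFpos : 0 < finrank ℚ F := finrank_pos
  have h3 : finrank F K = 2 := by
    have h4 := Module.finrank_mul_finrank ℚ F K
    rw [h2] at h4
    have h5 : finrank ℚ F * finrank F K = finrank ℚ F * 2 := by rw [h4, mul_comm]
    exact Nat.eq_of_mul_eq_mul_left hFpos h5
  haveI : FiniteDimensional F K := FiniteDimensional.of_finrank_pos (by rw [h3]; norm_num)
  -- an element of `K` outside of `F ⊔ L`
  obtain ⟨a, haK, haE⟩ := Set.not_subset.1 hne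
  have ha : IsIntegral F (⟨a, haK⟩ : K) := IsIntegral.of_finite F _
  have htop : IntermediateField.adjoin F {(⟨a, haK⟩ : K)} = ⊤ := by
    have h4 : finrank F (IntermediateField.adjoin F {(⟨a, haK⟩ : K)}) ∣ 2 := by
      rw [← h3, ← Module.finrank_mul_finrank F (IntermediateField.adjoin F {(⟨a, haK⟩ : K)}) K]
      exact Dvd.intro _ rfl
    rcases (Nat.dvd_prime Nat.prime_two).1 h4 with h5 | h5
    · exfalso
      rw [IntermediateField.finrank_eq_one_iff, IntermediateField.adjoin_simple_eq_bot_iff,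
        IntermediateField.mem_bot] at h5
      obtain ⟨y, hy⟩ := h5
      apply haE
      have h6 : (y : Ω) = a := congrArg (fun t : K => (t : Ω)) hy
      rw [← h6]
      exact (le_sup_left : F ≤ F ⊔ L) y.2
    · apply IntermediateField.eq_of_le_of_finrank_le le_top
      rw [h5, IntermediateField.finrank_top', h3]
  -- the element in `H`
  obtain ⟨b, hb⟩ := hH a ((le_sup_left : K ≤ K ⊔ L) haK)
  -- the quadratic equation
  have hdeg : (minpoly F (⟨a, haK⟩ : K)).natDegree = 2 := by
    rw [← IntermediateField.adjoin.finrank ha, htop, IntermediateField.finrank_top', h3]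
  obtain ⟨φ, hφ⟩ := exists_hom' (ιH.comp (algebraMap E H)) F
    (fun x hx => hE x ((le_sup_left : F ≤ F ⊔ L) hx))
  have hgb : Polynomial.aeval b ((minpoly F (⟨a, haK⟩ : K)).map φ) = 0 := by
    apply ιH.injective
    rw [map_zero, Polynomial.aeval_def, Polynomial.eval₂_map, Polynomial.hom_eval₂, hb]
    have h5 : ιH.comp ((algebraMap E H).comp φ) = (algebraMap K Ω).comp (algebraMap F K) := by
      ext x
      exact hφ x
    rw [h5]
    have h6 := minpoly.aeval F (⟨a, haK⟩ : K)
    have h7 := congrArg (algebraMap K Ω) h6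
    rw [map_zero, Polynomial.aeval_def, Polynomial.hom_eval₂] at h7
    exact h7
  have hmon : ((minpoly F (⟨a, haK⟩ : K)).map φ).Monic := (minpoly.monic ha).map φ
  have hbi : IsIntegral E b := ⟨_, hmon, by rw [← Polynomial.aeval_def]; exact hgb⟩
  have hle : (minpoly E b).natDegree ≤ 2 := by
    have h5 := Polynomial.natDegree_le_of_dvd (minpoly.dvd E b hgb) hmon.ne_zero
    rwa [(minpoly.monic ha).natDegree_map, hdeg] at h5
  haveI : Algebra.IsIntegral E H := inferInstance
  set T := IntermediateField.adjoin E {b} with hT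
  have hbT : b ∈ T := IntermediateField.mem_adjoin_simple_self E b
  have hTtop : T = ⊤ := by
    rw [eq_top_iff]
    intro y _
    let T' : IntermediateField ℚ Ω := (T.toSubfield.map ιH).toIntermediateField (fun q => by
          rw [eq_ratCast]
          exact SubfieldClass.ratCast_mem _ q)
    have hKT : K ≤ T' := by
      let S : IntermediateField F K := (T'.toSubfield.comap (algebraMap K Ω)).toIntermediateField
        (fun x => by
          obtain ⟨z, hz⟩ := hE x ((le_sup_left : F ≤ F ⊔ L) x.2)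
          exact ⟨algebraMap E H z, T.algebraMap_mem z, hz⟩)
      have h5 : IntermediateField.adjoin F {(⟨a, haK⟩ : K)} ≤ S := by
        rw [IntermediateField.adjoin_simple_le_iff]
        exact ⟨b, hbT, hb⟩
      rw [htop] at h5
      intro x hx
      exact h5 (IntermediateField.mem_top (x := (⟨x, hx⟩ : K)))
    have hLT : L ≤ T' := by
      intro x hx
      obtain ⟨z, hz⟩ := hE x ((le_sup_right : L ≤ F ⊔ L) hx)
      exact ⟨algebraMap E H z, T.algebraMap_mem z, hz⟩
    obtain ⟨z, hz, hzy⟩ := (sup_le hKT hLT) (hH' y)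
    have : z = y := ιH.injective hzy
    rw [← this]
    exact hz
  have hfr : finrank E H = (minpoly E b).natDegree := by
    rw [← IntermediateField.adjoin.finrank hbi, ← hT, hTtop, IntermediateField.finrank_top']
  have hpos : 0 < (minpoly E b).natDegree := minpoly.natDegree_pos hbi
  have hne1 : (minpoly E b).natDegree ≠ 1 := by
    intro h5
    rw [minpoly.natDegree_eq_one_iff] at h5
    obtain ⟨z, hz⟩ := h5
    apply haE
    rw [← hb, ← hz]
    exact hE' z
  omega

end Pool.Agent.Y18.LC
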