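import Mathlib
import Pool.Agent.Y18.LC.Sigma

/-!
# Project LC: the Sigma-Leopoldt conjecture for the characters of `K L / K`, II
-/

set_option autoImplicit false

namespace Pool.Agent.Y18.LC

open NumberField Module Pool.Agent.H637R2.Leo Pool.Agent.W289.SL

variable {Ω : Type} [Field Ω] [CharZero Ω]

/-- an extension of a totally complex field is not contained in a totally real field -/
lemma not_le_real (K E : IntermediateField ℚ Ω) [FiniteDimensional ℚ K] [FiniteDimensional ℚ E]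
    (hK : IsTotallyComplex K) (hE : IsTotallyReal E) : ¬ K ≤ E := by
  intro h
  have hnK : NumberField K := nf_of _ inferInstance
  have hnE : NumberField E := nf_of _ inferInstance
  let f : K →+* E := (IntermediateField.inclusion h).toRingHom
  obtain ⟨w⟩ : Nonempty (InfinitePlace E) := inferInstance
  have h1 := (IsTotallyReal.isReal w).comap f
  exact InfinitePlace.not_isReal_iff_isComplex.2 (hK.isComplex (w.comap f)) h1

theorem sigF_of (hLCP : LCP) (hSIG : SIG) (F K L : IntermediateField ℚ Ω) (hFK : F ≤ K)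
    (hF : FiniteDimensional ℚ F) (hK : FiniteDimensional ℚ K)
    (hFr : IsTotallyReal F) (hKc : IsTotallyComplex K) (h2 : finrank ℚ K = 2 * finrank ℚ F)
    (hL : FiniteDimensional ℚ L) (hLG : IsGalois ℚ L) (hLo : Odd (finrank ℚ L))
    {p : ℕ} [Fact p.Prime] (hLeo : LeoF (F ⊔ L) p) : SigF F K L hFK p := by
  obtain ⟨hnE, hLeoE⟩ := hLeo
  have hnH : NumberField ↥(K ⊔ L) := nf_of _ inferInstance
  have hnF : NumberField F := nf_of _ hF
  have hnK : NumberField K := nf_of _ hK
  have hnL : NumberField L := nf_of _ hL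
  have hLr : IsTotallyReal L := by
    refine treal_odd L ?_ ?_
    · exact IsGalois.of_algEquiv (ratE (RingEquiv.refl L))
    · rw [← finrank_congr (RingEquiv.refl L)]
      exact hLo
  have hEr : IsTotallyReal ↥(F ⊔ L) := treal_sup F L hFr hLr
  refine ⟨hnH, ?_⟩
  letI algFK : Algebra F K := (IntermediateField.inclusion hFK).toRingHom.toAlgebra
  letI algKH : Algebra K ↥(K ⊔ L) :=
    (IntermediateField.inclusion (le_sup_left : K ≤ K ⊔ L)).toRingHom.toAlgebra
  letI algFE : Algebra F ↥(F ⊔ L) :=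
    (IntermediateField.inclusion (le_sup_left : F ≤ F ⊔ L)).toRingHom.toAlgebra
  letI algEH : Algebra ↥(F ⊔ L) ↥(K ⊔ L) :=
    (IntermediateField.inclusion (sup_le_sup_right hFK L)).toRingHom.toAlgebra
  have hne : ¬ K ≤ F ⊔ L := not_le_real K (F ⊔ L) hKc hEr
  have hEH : finrank ↥(F ⊔ L) ↥(K ⊔ L) = 2 :=
    finrank_two F K L hFK h2 hne ↥(F ⊔ L) ↥(K ⊔ L) (algebraMap ↥(K ⊔ L) Ω)
      (fun x hx => ⟨⟨x, hx⟩, rfl⟩) (fun y => y.2) (fun x hx => ⟨⟨x, hx⟩, rfl⟩) (fun y => y.2)
  have hFKr : finrank F K = 2 := by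
    haveI tow : IsScalarTower ℚ F K := IsScalarTower.of_algebraMap_eq' rfl
    have hFpos : 0 < finrank ℚ F := finrank_pos
    have h4 := Module.finrank_mul_finrank ℚ F K
    rw [h2] at h4
    have h5 : finrank ℚ F * finrank F K = finrank ℚ F * 2 := by rw [h4, mul_comm]
    exact Nat.eq_of_mul_eq_mul_left hFpos h5
  exact hSIG p F K ↥(F ⊔ L) ↥(K ⊔ L) hEr hKc hFKr hEH (fun x => rfl)
    (hLCP p ↥(F ⊔ L) hLeoE)

end Pool.Agent.Y18.LC
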