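import Mathlib
import Pool.Agent.Y18.LC.Sigma2

/-!
# Project LC: the Sigma-Leopoldt conjecture for the characters of `K L / K`, III
-/

set_option autoImplicit false

namespace Pool.Agent.Y18.LC

open NumberField Module Pool.Agent.H637R2.Leo Pool.Agent.W289.SL

variable {Ω : Type} [Field Ω] [CharZero Ω]

lemma EA_rat (p : ℕ) : EA p ℚ := by
  have h1 : ∀ g : ℚ ≃ₐ[ℚ] ℚ, g = 1 := fun g => Subsingleton.elim _ _
  refine ⟨inferInstance, fun g h => ?_, fun g => ?_⟩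
  · rw [h1 g, h1 h]
  · rw [h1 g, one_pow]

lemma EA_bot (p : ℕ) : EA p (⊥ : IntermediateField ℚ Ω) :=
  (EA_rat p).congr (IntermediateField.botEquiv ℚ Ω).symm.toRingEquiv

/-- the case `M = ℚ` of the step -/
theorem stepQ (hRAM : RAM) (hFLD : FLD) (hUNR : UNR) (hNSB : NSB) (hDSC : DSC)
    (k : IntermediateField ℚ Ω) (p : ℕ) [hpf : Fact p.Prime]
    (hp2 : p ≠ 2) (hk : FiniteDimensional ℚ k) (hun : (Ideal.span {(p : 𝓞 k)}).IsRadical)
    (hkp : ¬ p ∣ finrank ℚ k) (hL : LeoF k p) :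
    ∃ W : ℕ, ∀ (m : ℕ) (F₀ : IntermediateField ℚ Ω), EA p F₀ →
      finrank ℚ F₀ = p ^ m → (Ideal.span {(p : 𝓞 F₀)}).IsRadical →
      (∀ q : ℕ, q.Prime → (Ideal.span {(q : 𝓞 F₀)}).IsRadical ∨ NonS k q) →
      p ^ (m - W) ≤ 1 + (p - 1) * Nat.card {L : IntermediateField ℚ Ω // L ≤ F₀ ∧
        finrank ℚ L = p ∧ LeoF (k ⊔ L) p} := by
  have hp : p.Prime := hpf.out
  obtain ⟨W, hW⟩ := stepO hRAM hFLD hUNR hNSB hDSC k ⊥ p hp2 hk hun hkp 0
    (by rw [IntermediateField.finrank_bot, pow_zero]) (EA_bot p)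
    (unram_of_hom (IntermediateField.inclusion (bot_le : ⊥ ≤ k)).toRingHom hp.ne_zero hun)
    (by rw [sup_bot_eq]; exact hL)
  refine ⟨W, fun m F₀ h1 h2 h3 h4 => ?_⟩
  have h5 := hW m F₀ bot_le h1 (by rw [h2, zero_add]) h3 h4
  refine h5.trans (Nat.add_le_add_left (Nat.mul_le_mul_left _ ?_) 1)
  apply le_of_eq
  refine Nat.card_congr (Equiv.subtypeEquivRight fun L => ?_)
  rw [zero_add, pow_one]
  exact ⟨fun h => h.2, fun h => ⟨bot_le, h⟩⟩

/-- the Sigma-Leopoldt statement for all totally complex quadratic extensions `K` of `F`, all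
CM types and all characters of `Gal(K L / K)` -/
def SigAll (F L : IntermediateField ℚ Ω) (p : ℕ) [Fact p.Prime] : Prop :=
  ∀ (K : IntermediateField ℚ Ω) (hFK : F ≤ K), FiniteDimensional ℚ K → IsTotallyComplex K →
    finrank ℚ K = 2 * finrank ℚ F → SigF F K L hFK p

lemma sigAll_of (hLCP : LCP) (hSIG : SIG) (F L : IntermediateField ℚ Ω)
    (hF : FiniteDimensional ℚ F) (hFr : IsTotallyReal F) {p : ℕ} [hpf : Fact p.Prime]
    (hp2 : p ≠ 2) (hL : FiniteDimensional ℚ L) (hEA : EA p L) (hLeo : LeoF (F ⊔ L) p) :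
    SigAll F L p := by
  intro K hFK hK hKc h2
  obtain ⟨s, hs⟩ := EA_finrank hEA hL
  exact sigF_of hLCP hSIG F K L hFK hF hK hFr hKc h2 hL hEA.1
    (by rw [hs]; exact (hpf.out.odd_of_ne_two hp2).pow) hLeo

/-- **positive proportion** -/
theorem sigma1 (hLCP : LCP) (hSIG : SIG) (hRAM : RAM) (hFLD : FLD) (hUNR : UNR) (hNSB : NSB)
    (hDSC : DSC) (F : IntermediateField ℚ Ω) (p : ℕ) [hpf : Fact p.Prime]
    (hp2 : p ≠ 2) (hF : FiniteDimensional ℚ F) (hFr : IsTotallyReal F)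
    (hun : (Ideal.span {(p : 𝓞 F)}).IsRadical) (hFp : ¬ p ∣ finrank ℚ F) (hL : LeoF F p) :
    ∃ W : ℕ, ∀ (m : ℕ) (F₀ : IntermediateField ℚ Ω), EA p F₀ →
      finrank ℚ F₀ = p ^ m → (Ideal.span {(p : 𝓞 F₀)}).IsRadical →
      (∀ q : ℕ, q.Prime → (Ideal.span {(q : 𝓞 F₀)}).IsRadical ∨ NonS F q) →
      p ^ (m - W) ≤ 1 + (p - 1) * Nat.card {L : IntermediateField ℚ Ω // L ≤ F₀ ∧
        finrank ℚ L = p ∧ SigAll F L p} := by
  have hp : p.Prime := hpf.out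
  obtain ⟨W, hW⟩ := stepQ hRAM hFLD hUNR hNSB hDSC F p hp2 hF hun hFp hL
  refine ⟨W, fun m F₀ h1 h2 h3 h4 => ?_⟩
  refine (hW m F₀ h1 h2 h3 h4).trans (Nat.add_le_add_left (Nat.mul_le_mul_left _ ?_) 1)
  have hfd : FiniteDimensional ℚ F₀ := by
    apply FiniteDimensional.of_finrank_pos
    rw [h2]
    exact pow_pos hp.pos _
  have hfin : Finite {L : IntermediateField ℚ Ω // L ≤ F₀ ∧ finrank ℚ L = p ∧ SigAll F L p} := by
    have h1 := finite_sub F₀ hfd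
    refine Finite.of_injective (fun L => (⟨L.1, L.2.1⟩ : {L : IntermediateField ℚ Ω // L ≤ F₀})) ?_
    intro L L' h
    have h2 := congrArg (fun t : {L : IntermediateField ℚ Ω // L ≤ F₀} => t.1) h
    exact Subtype.ext h2
  have key : ∀ L : IntermediateField ℚ Ω, L ≤ F₀ ∧ finrank ℚ L = p ∧ LeoF (F ⊔ L) p →
      L ≤ F₀ ∧ finrank ℚ L = p ∧ SigAll F L p := by
    rintro L ⟨h5, h6, h7⟩
    have hLfd : FiniteDimensional ℚ L := by
      apply FiniteDimensional.of_finrank_pos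
      rw [h6]
      exact hp.pos
    exact ⟨h5, h6, sigAll_of hLCP hSIG F L hF hFr hp2 hLfd (EA_sub h5 h1) h7⟩
  exact Nat.card_le_card_of_injective (fun L => ⟨L.1, key L.1 L.2⟩) (fun L L' h => by
    have h2 := congrArg (fun t : {L : IntermediateField ℚ Ω // L ≤ F₀ ∧ finrank ℚ L = p ∧
      SigAll F L p} => t.1) h
    exact Subtype.ext h2)

end Pool.Agent.Y18.LC
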