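import Mathlib
import Pool.Agent.Y18.LC.Sigma3

/-!
# Project LC: the Sigma-Leopoldt conjecture for the characters of `K L / K`, IV
-/

set_option autoImplicit false

namespace Pool.Agent.Y18.LC

open NumberField Module Pool.Agent.H637R2.Leo Pool.Agent.W289.SL

variable {Ω : Type} [Field Ω] [CharZero Ω]

/-- from the fields contained in `F M` to the characters -/
lemma sigAll_tower (hLCP : LCP) (hSIG : SIG) (F M : IntermediateField ℚ Ω)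
    (hF : FiniteDimensional ℚ F) (hFr : IsTotallyReal F) {p : ℕ} [hpf : Fact p.Prime]
    (hp2 : p ≠ 2) (hEA : EA p M)
    (hLeo : ∀ L : IntermediateField ℚ Ω, L ≤ F ⊔ M → FiniteDimensional ℚ L → LeoF L p) :
    ∀ L : IntermediateField ℚ Ω, L ≤ M → FiniteDimensional ℚ L → SigAll F L p := by
  intro L hLM hL
  exact sigAll_of hLCP hSIG F L hF hFr hp2 hL (EA_sub hLM hEA)
    (hLeo _ (sup_le_sup_left hLM F) inferInstance)

/-- **infinite towers** -/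
theorem sigma2 (hLCP : LCP) (hSIG : SIG) (hRAM : RAM) (hFLD : FLD) (hUNR : UNR) (hNSB : NSB)
    (hDSC : DSC) (F : IntermediateField ℚ Ω) (p : ℕ) [hpf : Fact p.Prime]
    (hp2 : p ≠ 2) (hF : FiniteDimensional ℚ F) (hFr : IsTotallyReal F)
    (hun : (Ideal.span {(p : 𝓞 F)}).IsRadical) (hFp : ¬ p ∣ finrank ℚ F) (hL : LeoF F p)
    (A : IntermediateField ℚ Ω) (hA : EA p A)
    (hAinf : ¬ FiniteDimensional ℚ A) (hAun : (Ideal.span {(p : 𝓞 A)}).IsRadical)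
    (hAram : ∀ q : ℕ, q.Prime → (Ideal.span {(q : 𝓞 A)}).IsRadical ∨ NonS F q) :
    ∃ M : IntermediateField ℚ Ω, M ≤ A ∧ ¬ FiniteDimensional ℚ M ∧
      ∀ L : IntermediateField ℚ Ω, L ≤ M → FiniteDimensional ℚ L → SigAll F L p := by
  obtain ⟨M, hMA, hMinf, hM⟩ := tower hRAM hFLD hUNR hNSB hDSC F p hp2 hF hun hFp hL A hA hAinf
    hAun hAram
  exact ⟨M, hMA, hMinf, sigAll_tower hLCP hSIG F M hF hFr hp2 (EA_sub hMA hA) hM⟩

/-- **existence** -/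
theorem sigma3 (hLCP : LCP) (hSIG : SIG) (hGLF : GLF) (hCHB : CHB) (hCYA : CYA) (hRAM : RAM)
    (hFLD : FLD) (hUNR : UNR) (hNSB : NSB) (hDSC : DSC) [IsAlgClosed Ω]
    (F : IntermediateField ℚ Ω) (p : ℕ) [hpf : Fact p.Prime]
    (hp2 : p ≠ 2) (hF : FiniteDimensional ℚ F) (hFr : IsTotallyReal F)
    (hun : (Ideal.span {(p : 𝓞 F)}).IsRadical) (hFp : ¬ p ∣ finrank ℚ F) (hL : LeoF F p)
    (hcyc : ∃ g : AlgebraicClosure ℚ ≃+* AlgebraicClosure ℚ,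
      ∀ τ τ' : F →+* AlgebraicClosure ℚ, ∃ j : ℕ, ∀ x : F, (⇑g)^[j] (τ x) = τ' x) :
    {q : ℕ | q.Prime ∧ q % p = 1 ∧ NonS F q}.Infinite ∧
    ∀ Q ⊆ {q : ℕ | q.Prime ∧ q % p = 1 ∧ NonS F q}, Q.Infinite →
    ∃ M : IntermediateField ℚ Ω, EA p M ∧ ¬ FiniteDimensional ℚ M ∧
      (∀ l : ℕ, l.Prime → l ∉ Q → (Ideal.span {(l : 𝓞 M)}).IsRadical) ∧
      ∀ L : IntermediateField ℚ Ω, L ≤ M → FiniteDimensional ℚ L → SigAll F L p := by
  obtain ⟨h1, h2⟩ := part3 hGLF hCHB hCYA hRAM hFLD hUNR hNSB hDSC F p hp2 hF hun hFp hL hcyc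
  refine ⟨h1, fun Q hQ hQinf => ?_⟩
  obtain ⟨M, hEA, hMinf, hMram, hM⟩ := h2 Q hQ hQinf
  exact ⟨M, hEA, hMinf, hMram, sigAll_tower hLCP hSIG F M hF hFr hp2 hEA hM⟩

/-- **unconditional examples** -/
theorem sigma4 (hLCP : LCP) (hSIG : SIG) (hGLF : GLF) (hCHB : CHB) (hCYA : CYA) (hPRD : PRD)
    (hFAM : FAM) (hRAM : RAM) (hFLD : FLD) (hUNR : UNR) (hNSB : NSB) (hDSC : DSC) [IsAlgClosed Ω]
    (n p : ℕ) [hpf : Fact p.Prime] (hn : n.Prime) (hn3 : 3 ≤ n) (hp2 : p ≠ 2) (hpn : p ≠ n)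
    (ι : Type) [Fintype ι] (E : ι → Type) [∀ i, Field (E i)] [∀ i, NumberField (E i)] :
    ∃ F M : IntermediateField ℚ Ω, finrank ℚ F = n ∧ IsTotallyReal F ∧ ¬ IsGalois ℚ F ∧
      (∀ i, IsEmpty (F ≃+* E i)) ∧ EA p M ∧ ¬ FiniteDimensional ℚ M ∧
      ∀ L : IntermediateField ℚ Ω, L ≤ M → FiniteDimensional ℚ L → SigAll F L p := by
  obtain ⟨F, M, h1, h2, h3, h4, h5, h6, h7⟩ := part4 (Ω := Ω) hGLF hCHB hCYA hPRD hFAM hRAM hFLD
    hUNR hNSB hDSC n p hn hn3 hp2 hpn ι E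
  have hF : FiniteDimensional ℚ F := by
    apply FiniteDimensional.of_finrank_pos
    rw [h1]
    omega
  exact ⟨F, M, h1, h2, h3, h4, h5, h6, sigAll_tower hLCP hSIG F M hF h2 hp2 h5 h7⟩

end Pool.Agent.Y18.LC
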